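import Pool.Agent.ULead.ExtSq2

set_option autoImplicit false

namespace Pool.Agent.ULead.ExtSq

/-- insertion of `x` before position `p` -/
def Ins (G : ℕ → ℚ) (p : ℕ) (x : ℚ) (k : ℕ) : ℚ := if k < p then G k else if k = p then x else G (k - 1)

lemma Ins_lt {G : ℕ → ℚ} {p : ℕ} {x : ℚ} {k : ℕ} (h : k < p) : Ins G p x k = G k := by simp [Ins, h]
lemma Ins_eq {G : ℕ → ℚ} {p : ℕ} {x : ℚ} {k : ℕ} (h : k = p) : Ins G p x k = x := by simp [Ins, h]
lemma Ins_gt {G : ℕ → ℚ} {p : ℕ} {x : ℚ} {k : ℕ} (h : p < k) : Ins G p x k = G (k - 1) := by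
  simp [Ins, show ¬ k < p by omega, show ¬ k = p by omega]

lemma sq2 {G : ℕ → ℚ} {i : ℕ} (h1 : G i ≠ G (i + 1)) (h2 : G (i + 2) ≠ G (i + 3))
    (h : G i < G (i + 1) ↔ G (i + 2) < G (i + 3)) : Sq G i 2 := by
  intro a ha b hb
  interval_cases a <;> interval_cases b
  · simp
  · simpa using h
  · constructor
    · intro h'
      have h' : G (i + 1) < G i := by simpa using h'
      have : ¬ G (i + 2) < G (i + 3) := fun h3 => absurd (h.2 h3) (not_lt.2 h'.le)
      exact lt_of_le_of_ne (not_lt.1 this) (Ne.symm h2)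
    · intro h'
      have h' : G (i + 3) < G (i + 2) := by simpa using h'
      have : ¬ G i < G (i + 1) := fun h3 => absurd (h.1 h3) (not_lt.2 h'.le)
      simpa using lt_of_le_of_ne (not_lt.1 this) (Ne.symm h1)
  · simp

lemma sq_of_rank {G : ℕ → ℚ} {i l : ℕ} (r : ℕ → ℕ) (hinj : ∀ a < l, ∀ b < l, r a = r b → a = b)
    (h1 : ∀ a < l, ∀ b < l, r a < r b → G (i + a) < G (i + b))
    (h2 : ∀ a < l, ∀ b < l, r a < r b → G (i + l + a) < G (i + l + b)) : Sq G i l := by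
  intro a ha b hb
  rcases lt_trichotomy (r a) (r b) with h | h | h
  · exact ⟨fun _ => h2 a ha b hb h, fun _ => h1 a ha b hb h⟩
  · have := hinj a ha b hb h
    subst this
    simp
  · exact ⟨fun h' => absurd (h1 b hb a ha h) (not_lt.2 h'.le), fun h' => absurd (h2 b hb a ha h) (not_lt.2 h'.le)⟩

/-- the permutation, with rational values -/
def Q (s k : ℕ) : ℚ := (F s k : ℚ)

lemma Q_shape (s k : ℕ) (hk : k + 1 < 64 * 2 ^ s + 21) :
    Q s k < Q s (k + 1) ↔ ((k + 1) % 4 = 0 ∨ (k + 1) % 4 = 1) := by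
  unfold Q
  rw [Int.cast_lt]
  exact F_shape s k hk

lemma Q_vals (s : ℕ) :
    Q s 0 = -160 * 2 ^ s - 4 ∧ Q s 1 = 320 * 2 ^ s + 1 ∧ Q s 2 = 320 * 2 ^ s ∧
    Q s 3 = -160 * 2 ^ s - 3 ∧ Q s 4 = -160 * 2 ^ s ∧ Q s 5 = 192 * 2 ^ s + 8 ∧
    Q s 6 = 192 * 2 ^ s + 5 ∧ Q s 7 = -160 * 2 ^ s - 2 ∧ Q s 8 = 192 * 2 ^ s + 6 ∧
    Q s 9 = 320 * 2 ^ s + 2 ∧ Q s 10 = 192 * 2 ^ s + 4 ∧ Q s 11 = -160 * 2 ^ s - 1 ∧
    Q s 12 = 1 - 128 * 2 ^ s ∧ Q s 13 = 192 * 2 ^ s + 3 ∧ Q s 14 = 1 - 64 * 2 ^ s := by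
  obtain ⟨v0, v1, v2, v3, v4, v5, v6, v7, v8, v9, v10, v11⟩ := F_vals s
  obtain ⟨v12, v13, v14, -⟩ := F_vals' s
  unfold Q
  rw [v0, v1, v2, v3, v4, v5, v6, v7, v8, v9, v10, v11, v12, v13, v14]
  push_cast
  exact ⟨rfl, rfl, rfl, rfl, rfl, rfl, rfl, rfl, rfl, rfl, rfl, rfl, rfl, rfl, rfl⟩

/-- ranks of the block of length eight -/
def rk : ℕ → ℕ
  | 0 => 1
  | 1 => 7
  | 2 => 8
  | 3 => 6
  | 4 => 2
  | 5 => 3
  | 6 => 5
  | _ => 4

lemma rk_inj : ∀ a < 8, ∀ b < 8, rk a = rk b → a = b := by decide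

/-- insertions in the first three slots -/
lemma left_slots (s p : ℕ) (hp : p ≤ 2) (x : ℚ) (hx : ∀ k < 64 * 2 ^ s + 21, Q s k ≠ x) :
    ∃ i l, 2 ≤ l ∧ i + 2 * l ≤ 64 * 2 ^ s + 21 + 1 ∧ Sq (Ins (Q s) p x) i l := by
  have hpos : (1 : ℚ) ≤ 2 ^ s := one_le_pow₀ (by norm_num)
  have hpos' : 0 < 2 ^ s := by positivity
  obtain ⟨v0, v1, v2, v3, v4, v5, v6, v7, v8, v9, v10, v11, v12, v13, v14⟩ := Q_vals s
  have n0 := hx 0 (by omega)
  have n1 := hx 1 (by omega)
  have n2 := hx 2 (by omega)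
  have n3 := hx 3 (by omega)
  rw [v0] at n0
  rw [v1] at n1
  rw [v2] at n2
  rw [v3] at n3
  interval_cases p
  · -- slot 0
    rcases lt_or_gt_of_ne n0 with h | h
    · refine ⟨0, 2, le_refl _, by omega, sq2 ?_ ?_ ?_⟩
      · simp only [Ins, v0, Nat.reduceAdd, Nat.reduceLT, Nat.reduceEqDiff, Nat.reduceSub, if_true, if_false, lt_self_iff_false]
        intro h'; norm_num at h'; linarith
      · simp [Ins, v1, v2]
      · have e0 : Ins (Q s) 0 x 0 < Ins (Q s) 0 x (0 + 1) ↔ False := by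
          simp only [iff_false, not_lt]; simp [Ins, v0]; linarith
        have e1 : Ins (Q s) 0 x (0 + 2) < Ins (Q s) 0 x (0 + 3) ↔ False := by
          simp only [iff_false, not_lt]; simp [Ins, v1, v2]
        rw [e0, e1]
    · refine ⟨0, 4, by omega, by omega, ?_⟩
      intro a ha b hb
      interval_cases a <;> interval_cases b <;> simp [Ins, v0, v1, v2, v3, v4, v5, v6] <;>
        first | (constructor <;> intro h' <;> linarith) | linarith
  · -- slot 1
    rcases lt_or_gt_of_ne n0 with h | h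
    · rcases lt_or_gt_of_ne n1 with h1 | h1
      · refine ⟨1, 2, le_refl _, by omega, sq2 ?_ ?_ ?_⟩
        · simp [Ins, v1]; exact ne_of_gt h1
        · simp [Ins, v2, v3]; intro h'; linarith
        · simp [Ins, v1, v2, v3]
          constructor <;> intro h' <;> linarith
      · rcases lt_or_gt_of_ne n2 with h2 | h2
        · refine ⟨0, 8, by omega, by omega, sq_of_rank rk rk_inj ?_ ?_⟩
          · intro a ha b hb hr
            interval_cases a <;> interval_cases b <;> simp [rk] at hr <;>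
              simp [Ins, v0, v1, v2, v3, v4, v5, v6] <;> linarith
          · intro a ha b hb hr
            interval_cases a <;> interval_cases b <;> simp [rk] at hr <;>
              simp [Ins, v7, v8, v9, v10, v11, v12, v13, v14] <;> linarith
        · refine ⟨0, 4, by omega, by omega, ?_⟩
          intro a ha b hb
          interval_cases a <;> interval_cases b <;> simp [Ins, v0, v1, v2, v3, v4, v5, v6] <;>
            first | (constructor <;> intro h' <;> linarith) | linarith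
    · refine ⟨0, 2, le_refl _, by omega, sq2 ?_ ?_ ?_⟩
      · simp only [Ins, v0, Nat.reduceAdd, Nat.reduceLT, Nat.reduceEqDiff, Nat.reduceSub, if_true, if_false, lt_self_iff_false]
        intro h'; norm_num at h'; linarith
      · simp [Ins, v1, v2]
      · have e0 : Ins (Q s) 1 x 0 < Ins (Q s) 1 x (0 + 1) ↔ False := by
          simp only [iff_false, not_lt]; simp [Ins, v0]; linarith
        have e1 : Ins (Q s) 1 x (0 + 2) < Ins (Q s) 1 x (0 + 3) ↔ False := by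
          simp only [iff_false, not_lt]; simp [Ins, v1, v2]
        rw [e0, e1]
  · -- slot 2
    rcases lt_or_gt_of_ne n1 with h | h
    · refine ⟨0, 8, by omega, by omega, sq_of_rank rk rk_inj ?_ ?_⟩
      · intro a ha b hb hr
        interval_cases a <;> interval_cases b <;> simp [rk] at hr <;>
          simp [Ins, v0, v1, v2, v3, v4, v5, v6] <;> linarith
      · intro a ha b hb hr
        interval_cases a <;> interval_cases b <;> simp [rk] at hr <;>
          simp [Ins, v7, v8, v9, v10, v11, v12, v13, v14] <;> linarith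
    · refine ⟨1, 2, le_refl _, by omega, sq2 ?_ ?_ ?_⟩
      · simp [Ins, v1]; exact ne_of_gt h
      · simp [Ins, v2, v3]; intro h'; linarith
      · simp [Ins, v1, v2, v3]
        constructor <;> intro h' <;> linarith

lemma Q_inj (s i j : ℕ) (hi : i < 64 * 2 ^ s + 21) (hj : j < 64 * 2 ^ s + 21) (he : Q s i = Q s j) : i = j :=
  F_inj s i j hi hj (by unfold Q at he; exact_mod_cast he)

/-- insertions in the middle slots -/
lemma mid_slots (s p : ℕ) (hp : 3 ≤ p) (hp' : p + 3 ≤ 64 * 2 ^ s + 21) (x : ℚ)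
    (hx : ∀ k < 64 * 2 ^ s + 21, Q s k ≠ x) :
    ∃ i l, 2 ≤ l ∧ i + 2 * l ≤ 64 * 2 ^ s + 21 + 1 ∧ Sq (Ins (Q s) p x) i l := by
  obtain ⟨q, rfl⟩ : ∃ q, p = q + 3 := ⟨p - 3, by omega⟩
  have g0 : Ins (Q s) (q + 3) x q = Q s q := Ins_lt (by omega)
  have g1 : Ins (Q s) (q + 3) x (q + 1) = Q s (q + 1) := Ins_lt (by omega)
  have g2 : Ins (Q s) (q + 3) x (q + 2) = Q s (q + 2) := Ins_lt (by omega)
  have g3 : Ins (Q s) (q + 3) x (q + 3) = x := Ins_eq rfl
  have g4 : Ins (Q s) (q + 3) x (q + 4) = Q s (q + 3) := Ins_gt (by omega)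
  have g5 : Ins (Q s) (q + 3) x (q + 5) = Q s (q + 4) := Ins_gt (by omega)
  have g6 : Ins (Q s) (q + 3) x (q + 6) = Q s (q + 5) := Ins_gt (by omega)
  have s0 := Q_shape s q (by omega)
  have s1 := Q_shape s (q + 1) (by omega)
  have s3 := Q_shape s (q + 3) (by omega)
  have s4 := Q_shape s (q + 4) (by omega)
  have hne : ∀ k, k + 1 < 64 * 2 ^ s + 21 → Q s k ≠ Q s (k + 1) := fun k hk he => by
    have := Q_inj s k (k + 1) (by omega) hk he
    omega
  have d0 := hne q (by omega)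
  have d1 := hne (q + 1) (by omega)
  have d3 := hne (q + 3) (by omega)
  have d4 := hne (q + 4) (by omega)
  have x2 := hx (q + 2) (by omega)
  have x3 := hx (q + 3) (by omega)
  by_cases c0 : (Q s q < Q s (q + 1) ↔ Q s (q + 2) < x)
  · refine ⟨q, 2, le_refl _, by omega, sq2 ?_ ?_ ?_⟩
    · rw [g0, g1]; exact d0
    · rw [g2, g3]; exact x2
    · rw [g0, g1, g2, g3]; exact c0
  by_cases c1 : (Q s (q + 1) < Q s (q + 2) ↔ x < Q s (q + 3))
  · refine ⟨q + 1, 2, le_refl _, by omega, sq2 ?_ ?_ ?_⟩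
    · rw [g1, show q + 1 + 1 = q + 2 from rfl, g2]; exact d1
    · rw [show q + 1 + 2 = q + 3 from rfl, show q + 1 + 3 = q + 4 from rfl, g3, g4]; exact x3.symm
    · rw [g1, show q + 1 + 1 = q + 2 from rfl, g2, show q + 1 + 2 = q + 3 from rfl,
        show q + 1 + 3 = q + 4 from rfl, g3, g4]; exact c1
  by_cases c2 : (Q s (q + 2) < x ↔ Q s (q + 3) < Q s (q + 4))
  · refine ⟨q + 2, 2, le_refl _, by omega, sq2 ?_ ?_ ?_⟩
    · rw [g2, show q + 2 + 1 = q + 3 from rfl, g3]; exact x2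
    · rw [show q + 2 + 2 = q + 4 from rfl, show q + 2 + 3 = q + 5 from rfl, g4, g5]; exact d3
    · rw [g2, show q + 2 + 1 = q + 3 from rfl, g3, show q + 2 + 2 = q + 4 from rfl,
        show q + 2 + 3 = q + 5 from rfl, g4, g5]; exact c2
  by_cases c3 : (x < Q s (q + 3) ↔ Q s (q + 4) < Q s (q + 5))
  · refine ⟨q + 3, 2, le_refl _, by omega, sq2 ?_ ?_ ?_⟩
    · rw [g3, show q + 3 + 1 = q + 4 from rfl, g4]; exact x3.symm
    · rw [show q + 3 + 2 = q + 5 from rfl, show q + 3 + 3 = q + 6 from rfl, g5, g6]; exact d4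
    · rw [g3, show q + 3 + 1 = q + 4 from rfl, g4, show q + 3 + 2 = q + 5 from rfl,
        show q + 3 + 3 = q + 6 from rfl, g5, g6]; exact c3
  exfalso
  rw [show q + 1 + 1 = q + 2 from rfl] at s1
  rw [show q + 3 + 1 = q + 4 from rfl] at s3
  rw [show q + 4 + 1 = q + 5 from rfl] at s4
  rw [s0] at c0
  rw [s1] at c1
  rw [s3] at c2
  rw [s4] at c3
  by_cases e1 : Q s (q + 2) < x <;> by_cases e2 : x < Q s (q + 3) <;> simp only [e1, e2, iff_true, iff_false, true_iff, false_iff, not_not] at c0 c1 c2 c3 <;> omega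

lemma Q_anti (s k : ℕ) (hk : k < 64 * 2 ^ s + 21) : Q s (64 * 2 ^ s + 20 - k) = - Q s k := by
  unfold Q
  rw [F_anti s k hk]
  push_cast
  rfl

/-- all insertions -/
lemma all_slots (s p : ℕ) (hp : p ≤ 64 * 2 ^ s + 21) (x : ℚ)
    (hx : ∀ k < 64 * 2 ^ s + 21, Q s k ≠ x) :
    ∃ i l, 2 ≤ l ∧ i + 2 * l ≤ 64 * 2 ^ s + 21 + 1 ∧ Sq (Ins (Q s) p x) i l := by
  by_cases h1 : p ≤ 2
  · exact left_slots s p h1 x hx
  by_cases h2 : p + 3 ≤ 64 * 2 ^ s + 21
  · exact mid_slots s p (by omega) h2 x hx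
  obtain ⟨i, l, hl, hil, hsq⟩ := left_slots s (64 * 2 ^ s + 21 - p) (by omega) (-x) (fun k hk he => by
    refine hx (64 * 2 ^ s + 20 - k) (by omega) ?_
    rw [Q_anti s k hk, he, neg_neg])
  have hG : ∀ k ≤ 64 * 2 ^ s + 21, Ins (Q s) p x k = - Ins (Q s) (64 * 2 ^ s + 21 - p) (-x) (64 * 2 ^ s + 21 - k) := by
    intro k hk
    rcases lt_trichotomy k p with h | h | h
    · rw [Ins_lt h, Ins_gt (by omega), show 64 * 2 ^ s + 21 - k - 1 = 64 * 2 ^ s + 20 - k by omega,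
        Q_anti s k (by omega), neg_neg]
    · rw [Ins_eq h, Ins_eq (by omega), neg_neg]
    · rw [Ins_gt h, Ins_lt (by omega), show 64 * 2 ^ s + 21 - k = 64 * 2 ^ s + 20 - (k - 1) by omega,
        Q_anti s (k - 1) (by omega), neg_neg]
  refine ⟨64 * 2 ^ s + 22 - i - 2 * l, l, hl, by omega, ?_⟩
  intro a hal b hbl
  have h3 := hsq (l - 1 - b) (by omega) (l - 1 - a) (by omega)
  rw [hG _ (by omega), hG _ (by omega), hG _ (by omega), hG _ (by omega), neg_lt_neg_iff, neg_lt_neg_iff,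
    show 64 * 2 ^ s + 21 - (64 * 2 ^ s + 22 - i - 2 * l + a) = i + l + (l - 1 - a) by omega,
    show 64 * 2 ^ s + 21 - (64 * 2 ^ s + 22 - i - 2 * l + b) = i + l + (l - 1 - b) by omega,
    show 64 * 2 ^ s + 21 - (64 * 2 ^ s + 22 - i - 2 * l + l + a) = i + (l - 1 - a) by omega,
    show 64 * 2 ^ s + 21 - (64 * 2 ^ s + 22 - i - 2 * l + l + b) = i + (l - 1 - b) by omega]
  exact h3.symm

/-- the list -/
def w (s : ℕ) : List ℚ := (List.range (64 * 2 ^ s + 21)).map (Q s)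

lemma w_length (s : ℕ) : (w s).length = 64 * 2 ^ s + 21 := by simp [w]

lemma w_getD (s k : ℕ) (hk : k < 64 * 2 ^ s + 21) : (w s).getD k 0 = Q s k := by
  simp [w, List.getD_eq_getElem?_getD, hk]

lemma ins_getD (s p : ℕ) (hp : p ≤ 64 * 2 ^ s + 21) (x : ℚ) (k : ℕ) (hk : k ≤ 64 * 2 ^ s + 21) :
    ((w s).take p ++ x :: (w s).drop p).getD k 0 = Ins (Q s) p x k := by
  have hlen : ((w s).take p).length = p := by simp [w_length, hp]
  rcases lt_trichotomy k p with h | h | h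
  · rw [Ins_lt h, List.getD_append _ _ _ _ (by rw [hlen]; exact h), ← w_getD s k (by omega)]
    simp [List.getD_eq_getElem?_getD, List.getElem?_take, h]
  · rw [Ins_eq h, List.getD_append_right _ _ _ _ (by rw [hlen]; omega), hlen, h]
    simp
  · rw [Ins_gt h, List.getD_append_right _ _ _ _ (by rw [hlen]; omega), hlen,
      show k - p = (k - 1 - p) + 1 by omega, List.getD_cons_succ, ← w_getD s (k - 1) (by omega)]
    simp only [List.getD_eq_getElem?_getD, List.getElem?_drop]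
    rw [show p + (k - 1 - p) = k - 1 by omega]

theorem main (N : ℕ) : ∃ w : List ℚ, N ≤ w.length ∧ w.Nodup ∧
      (¬ ∃ i ℓ : ℕ, 2 ≤ ℓ ∧ i + 2 * ℓ ≤ w.length ∧
          ∀ a < ℓ, ∀ b < ℓ,
            (w.getD (i + a) 0 < w.getD (i + b) 0 ↔
              w.getD (i + ℓ + a) 0 < w.getD (i + ℓ + b) 0)) ∧
      ∀ p : ℕ, p ≤ w.length → ∀ x : ℚ, x ∉ w →
        ∃ i ℓ : ℕ, 2 ≤ ℓ ∧ i + 2 * ℓ ≤ w.length + 1 ∧
          ∀ a < ℓ, ∀ b < ℓ,
            ((w.take p ++ x :: w.drop p).getD (i + a) 0 <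
                (w.take p ++ x :: w.drop p).getD (i + b) 0 ↔
              (w.take p ++ x :: w.drop p).getD (i + ℓ + a) 0 <
                (w.take p ++ x :: w.drop p).getD (i + ℓ + b) 0) := by
  refine ⟨w N, ?_, ?_, ?_, ?_⟩
  · rw [w_length]
    have : N < 2 ^ N := Nat.lt_two_pow_self
    omega
  · unfold w
    refine List.Nodup.map_on ?_ List.nodup_range
    intro a ha b hb he
    exact Q_inj N a b (List.mem_range.1 ha) (List.mem_range.1 hb) he
  · rintro ⟨i, l, hl, hil, h⟩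
    rw [w_length] at hil
    refine F_sqfree N i l hl hil ?_
    intro a ha b hb
    have := h a ha b hb
    rw [w_getD _ _ (by omega), w_getD _ _ (by omega), w_getD _ _ (by omega), w_getD _ _ (by omega)] at this
    unfold Q at this
    rw [Int.cast_lt, Int.cast_lt] at this
    exact this
  · intro p hp x hx
    rw [w_length] at hp
    obtain ⟨i, l, hl, hil, h⟩ := all_slots N p hp x (fun k hk he => by
      apply hx
      rw [← he]
      exact List.mem_map.2 ⟨k, List.mem_range.2 hk, rfl⟩)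
    refine ⟨i, l, hl, by rw [w_length]; exact hil, ?_⟩
    intro a ha b hb
    rw [ins_getD N p hp x _ (by omega), ins_getD N p hp x _ (by omega), ins_getD N p hp x _ (by omega),
      ins_getD N p hp x _ (by omega)]
    exact h a ha b hb

end Pool.Agent.ULead.ExtSq
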