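import Mathlib

set_option autoImplicit false
open Classical

namespace Pool.Agent.ULead.TG

variable {V : Type*}

/-- `H` consists of 4-sets with two vertices in each class. -/
def Adm (c : V → Bool) (H : Finset (Finset V)) : Prop :=
  ∀ e ∈ H, e.card = 4 ∧ ∀ v ∈ e, (e.filter (fun w => c w = c v)).card = 2

theorem quad_of_adm {c : V → Bool} {e : Finset V} (h4 : e.card = 4)
    (h2 : ∀ v ∈ e, (e.filter (fun w => c w = c v)).card = 2) :
    ∃ x1 x2 y1 y2, e = {x1, x2, y1, y2} ∧ x1 ≠ x2 ∧ y1 ≠ y2 ∧ c x1 = true ∧ c x2 = true ∧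
      c y1 = false ∧ c y2 = false := by
  have hsum : (e.filter (fun w => c w = true)).card + (e.filter (fun w => ¬ c w = true)).card
      = e.card := Finset.card_filter_add_card_filter_not _
  have hY : (e.filter (fun w => ¬ c w = true)) = e.filter (fun w => c w = false) := by
    apply Finset.filter_congr; intro x _; simp
  rw [hY, h4] at hsum
  have hXX : (e.filter (fun w => c w = true)).card = 2 := by
    by_cases hne : (e.filter (fun w => c w = true)).Nonempty
    · obtain ⟨v, hv⟩ := hne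
      rw [Finset.mem_filter] at hv
      have := h2 v hv.1
      rw [hv.2] at this
      exact this
    · rw [Finset.not_nonempty_iff_eq_empty] at hne
      rw [hne, Finset.card_empty] at hsum
      have hne2 : (e.filter (fun w => c w = false)).Nonempty := by
        rw [← Finset.card_pos]; omega
      obtain ⟨v, hv⟩ := hne2
      rw [Finset.mem_filter] at hv
      have := h2 v hv.1
      rw [hv.2] at this
      omega
  have hYY : (e.filter (fun w => c w = false)).card = 2 := by omega
  obtain ⟨x1, x2, hx, hX⟩ := Finset.card_eq_two.1 hXX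
  obtain ⟨y1, y2, hy, hYe⟩ := Finset.card_eq_two.1 hYY
  refine ⟨x1, x2, y1, y2, ?_, hx, hy, ?_, ?_, ?_, ?_⟩
  · ext z
    have h1 : z ∈ e.filter (fun w => c w = true) ↔ z ∈ ({x1, x2} : Finset V) := by rw [hX]
    have h2 : z ∈ e.filter (fun w => c w = false) ↔ z ∈ ({y1, y2} : Finset V) := by rw [hYe]
    simp only [Finset.mem_filter, Finset.mem_insert, Finset.mem_singleton] at h1 h2 ⊢
    cases hc : c z <;> simp [hc] at h1 h2 <;> tauto
  · have : x1 ∈ e.filter (fun w => c w = true) := by rw [hX]; simp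
    exact (Finset.mem_filter.1 this).2
  · have : x2 ∈ e.filter (fun w => c w = true) := by rw [hX]; simp
    exact (Finset.mem_filter.1 this).2
  · have : y1 ∈ e.filter (fun w => c w = false) := by rw [hYe]; simp
    exact (Finset.mem_filter.1 this).2
  · have : y2 ∈ e.filter (fun w => c w = false) := by rw [hYe]; simp
    exact (Finset.mem_filter.1 this).2

theorem er1 {a b c d e : V} (h1 : a ≠ b) (h2 : a ≠ c) (h3 : a ≠ d) (h4 : a ≠ e) :
    ({a, b, c, d, e} : Finset V).erase a = {b, c, d, e} := by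
  rw [Finset.erase_insert]
  simp only [Finset.mem_insert, Finset.mem_singleton, not_or]
  exact ⟨h1, h2, h3, h4⟩

theorem er2 {a b c d e : V} (h1 : b ≠ a) (h2 : b ≠ c) (h3 : b ≠ d) (h4 : b ≠ e) :
    ({a, b, c, d, e} : Finset V).erase b = {a, c, d, e} := by
  rw [Finset.insert_comm a b]; exact er1 h1 h2 h3 h4

theorem er3 {a b c d e : V} (h1 : c ≠ a) (h2 : c ≠ b) (h3 : c ≠ d) (h4 : c ≠ e) :
    ({a, b, c, d, e} : Finset V).erase c = {a, b, d, e} := by
  rw [Finset.insert_comm b c, Finset.insert_comm a c]; exact er1 h1 h2 h3 h4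

theorem five {a b c d e : V} (hab : a ≠ b) (hac : a ≠ c) (had : a ≠ d) (hae : a ≠ e)
    (hbc : b ≠ c) (hbd : b ≠ d) (hbe : b ≠ e) (hcd : c ≠ d) (hce : c ≠ e) (hde : d ≠ e) :
    ({a, b, c, d, e} : Finset V).card = 5 := by
  rw [Finset.card_insert_of_notMem, Finset.card_insert_of_notMem,
    Finset.card_insert_of_notMem, Finset.card_insert_of_notMem, Finset.card_singleton]
  · simpa using hde
  · simp only [Finset.mem_insert, Finset.mem_singleton, not_or]; exact ⟨hcd, hce⟩
  · simp only [Finset.mem_insert, Finset.mem_singleton, not_or]; exact ⟨hbc, hbd, hbe⟩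
  · simp only [Finset.mem_insert, Finset.mem_singleton, not_or]; exact ⟨hab, hac, had, hae⟩

/-- counting the hyperedges in a 5-set of type (3,2) -/
theorem count {c : V → Bool} {H : Finset (Finset V)} (hH : Adm c H) {x1 x2 x3 y1 y2 : V}
    (h12 : x1 ≠ x2) (h13 : x1 ≠ x3) (h23 : x2 ≠ x3) (hy : y1 ≠ y2)
    (hx2 : c x2 = c x1) (hx3 : c x3 = c x1) (hy1 : c y1 ≠ c x1) (hy2 : c y2 ≠ c x1) :
    (H.filter (fun e => e ⊆ {x1, x2, x3, y1, y2})).card
      = (if ({x1, x2, y1, y2} : Finset V) ∈ H then 1 else 0)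
        + (if ({x1, x3, y1, y2} : Finset V) ∈ H then 1 else 0)
        + (if ({x2, x3, y1, y2} : Finset V) ∈ H then 1 else 0) := by
  have n11 : x1 ≠ y1 := fun h => hy1 (by rw [h])
  have n12 : x1 ≠ y2 := fun h => hy2 (by rw [h])
  have n21 : x2 ≠ y1 := fun h => hy1 (by rw [← h, hx2])
  have n22 : x2 ≠ y2 := fun h => hy2 (by rw [← h, hx2])
  have n31 : x3 ≠ y1 := fun h => hy1 (by rw [← h, hx3])
  have n32 : x3 ≠ y2 := fun h => hy2 (by rw [← h, hx3])
  have e1 : ({x1, x2, x3, y1, y2} : Finset V).erase x1 = {x2, x3, y1, y2} := er1 h12 h13 n11 n12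
  have e2 : ({x1, x2, x3, y1, y2} : Finset V).erase x2 = {x1, x3, y1, y2} :=
    er2 h12.symm h23 n21 n22
  have e3 : ({x1, x2, x3, y1, y2} : Finset V).erase x3 = {x1, x2, y1, y2} :=
    er3 h13.symm h23.symm n31 n32
  have h5 := five h12 h13 n11 n12 h23 n21 n22 n31 n32 hy
  have mx1 : x1 ∈ ({x1, x2, x3, y1, y2} : Finset V) := by simp
  have mx2 : x2 ∈ ({x1, x2, x3, y1, y2} : Finset V) := by simp
  have mx3 : x3 ∈ ({x1, x2, x3, y1, y2} : Finset V) := by simp
  have my1 : y1 ∈ ({x1, x2, x3, y1, y2} : Finset V) := by simp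
  have my2 : y2 ∈ ({x1, x2, x3, y1, y2} : Finset V) := by simp
  have hmem : ∀ v ∈ ({x1, x2, x3, y1, y2} : Finset V),
      v = x1 ∨ v = x2 ∨ v = x3 ∨ v = y1 ∨ v = y2 := by
    intro v hv; simpa only [Finset.mem_insert, Finset.mem_singleton] using hv
  generalize hS : ({x1, x2, x3, y1, y2} : Finset V) = S at *
  rw [← e1, ← e2, ← e3]
  clear e1 e2 e3
  have hne : ∀ {u v : V}, u ∈ S → v ∈ S → u ≠ v → S.erase u ≠ S.erase v := by
    intro u v hu hv huv h
    have : u ∈ S.erase v := Finset.mem_erase.2 ⟨huv, hu⟩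
    rw [← h] at this
    exact (Finset.notMem_erase u S) this
  have key : H.filter (fun e => e ⊆ S)
      = ({S.erase x3, S.erase x2, S.erase x1} : Finset (Finset V)).filter (fun e => e ∈ H) := by
    ext e
    simp only [Finset.mem_filter, Finset.mem_insert, Finset.mem_singleton]
    constructor
    · rintro ⟨heH, hsub⟩
      refine ⟨?_, heH⟩
      obtain ⟨h4, h2⟩ := hH e heH
      have hd : (S \ e).card = 1 := by
        rw [Finset.card_sdiff_of_subset hsub, h5, h4]
      obtain ⟨v, hv⟩ := Finset.card_eq_one.1 hd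
      have hvS : v ∈ S := by
        have : v ∈ S \ e := by rw [hv]; exact Finset.mem_singleton_self v
        exact (Finset.mem_sdiff.1 this).1
      have hee : e = S.erase v := by
        rw [← Finset.sdiff_singleton_eq_erase, ← hv, Finset.sdiff_sdiff_eq_self hsub]
      have hno : ¬ (x1 ∈ e ∧ x2 ∈ e ∧ x3 ∈ e) := by
        rintro ⟨a1, a2, a3⟩
        have hc := h2 x1 a1
        have hs : ({x1, x2, x3} : Finset V) ⊆ e.filter (fun w => c w = c x1) := by
          intro z hz
          simp only [Finset.mem_insert, Finset.mem_singleton] at hz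
          rw [Finset.mem_filter]
          rcases hz with rfl | rfl | rfl
          · exact ⟨a1, rfl⟩
          · exact ⟨a2, hx2⟩
          · exact ⟨a3, hx3⟩
        have := Finset.card_le_card hs
        rw [hc, Finset.card_eq_three.2 ⟨x1, x2, x3, h12, h13, h23, rfl⟩] at this
        omega
      rcases hmem v hvS with h | h | h | h | h
      · right; right; rw [hee, h]
      · right; left; rw [hee, h]
      · left; rw [hee, h]
      · exfalso; apply hno; rw [hee, h]
        exact ⟨Finset.mem_erase.2 ⟨n11, mx1⟩, Finset.mem_erase.2 ⟨n21, mx2⟩,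
          Finset.mem_erase.2 ⟨n31, mx3⟩⟩
      · exfalso; apply hno; rw [hee, h]
        exact ⟨Finset.mem_erase.2 ⟨n12, mx1⟩, Finset.mem_erase.2 ⟨n22, mx2⟩,
          Finset.mem_erase.2 ⟨n32, mx3⟩⟩
    · rintro ⟨h, heH⟩
      refine ⟨heH, ?_⟩
      rcases h with h | h | h
      · rw [h]; exact Finset.erase_subset _ _
      · rw [h]; exact Finset.erase_subset _ _
      · rw [h]; exact Finset.erase_subset _ _
  rw [key, Finset.card_filter, Finset.sum_insert, Finset.sum_insert, Finset.sum_singleton]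
  · ring
  · rw [Finset.mem_singleton]; exact hne mx2 mx1 h12.symm
  · simp only [Finset.mem_insert, Finset.mem_singleton, not_or]
    exact ⟨hne mx3 mx2 h23.symm, hne mx3 mx1 h13.symm⟩


/-- hyperedge given by a function `g` -/
def Hyp (c : V → Bool) (g : V → V → ZMod 2) (e : Finset V) : Prop :=
  ∃ x1 x2 y1 y2, e = {x1, x2, y1, y2} ∧ x1 ≠ x2 ∧ y1 ≠ y2 ∧ c x2 = c x1 ∧ c y1 ≠ c x1 ∧
    c y2 ≠ c x1 ∧ g x1 y1 + g x1 y2 + g x2 y1 + g x2 y2 = 1

theorem pair_eq {a b x y : V} (h : ({a, b} : Finset V) = {x, y}) :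
    (a = x ∧ b = y) ∨ (a = y ∧ b = x) := by
  have h1 : a ∈ ({x, y} : Finset V) := by rw [← h]; simp
  have h2 : b ∈ ({x, y} : Finset V) := by rw [← h]; simp
  have h3 : x ∈ ({a, b} : Finset V) := by rw [h]; simp
  have h4 : y ∈ ({a, b} : Finset V) := by rw [h]; simp
  simp only [Finset.mem_insert, Finset.mem_singleton] at h1 h2 h3 h4
  grind

theorem filt {c : V → Bool} {b : Bool} {x1 x2 y1 y2 : V} (h1 : c x1 = b) (h2 : c x2 = b)
    (h3 : c y1 ≠ b) (h4 : c y2 ≠ b) :
    ({x1, x2, y1, y2} : Finset V).filter (fun w => c w = b) = {x1, x2} := by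
  ext z
  simp only [Finset.mem_filter, Finset.mem_insert, Finset.mem_singleton]
  grind

theorem filt' {c : V → Bool} {b : Bool} {x1 x2 y1 y2 : V} (h1 : c x1 ≠ b) (h2 : c x2 ≠ b)
    (h3 : c y1 = b) (h4 : c y2 = b) :
    ({x1, x2, y1, y2} : Finset V).filter (fun w => c w = b) = {y1, y2} := by
  ext z
  simp only [Finset.mem_filter, Finset.mem_insert, Finset.mem_singleton]
  grind

theorem hyp_iff {c : V → Bool} {g : V → V → ZMod 2} (gs : ∀ x y, g x y = g y x)
    {x1 x2 y1 y2 : V} (hx : x1 ≠ x2) (hy : y1 ≠ y2) (h1 : c x2 = c x1) (h2 : c y1 ≠ c x1)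
    (h3 : c y2 ≠ c x1) :
    Hyp c g {x1, x2, y1, y2} ↔ g x1 y1 + g x1 y2 + g x2 y1 + g x2 y2 = 1 := by
  constructor
  · rintro ⟨a1, a2, b1, b2, he, ha, hb, k1, k2, k3, hg⟩
    by_cases hc : c a1 = c x1
    · have e1 : ({x1, x2} : Finset V) = {a1, a2} := by
        rw [← filt (c := c) (b := c x1) rfl h1 h2 h3, he,
          filt (c := c) (b := c x1) hc (k1.trans hc) (by rw [← hc]; exact k2)
            (by rw [← hc]; exact k3)]
      have e2 : ({y1, y2} : Finset V) = {b1, b2} := by
        rw [← filt' (c := c) (b := !c x1) (x1 := x1) (x2 := x2) (by simp) (by simp [h1])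
          (by cases h : c x1 <;> simp_all) (by cases h : c x1 <;> simp_all), he,
          filt' (c := c) (b := !c x1) (by simp [hc]) (by simp [k1, hc])
          (by cases h : c x1 <;> simp_all) (by cases h : c x1 <;> simp_all)]
      rcases pair_eq e1 with ⟨rfl, rfl⟩ | ⟨rfl, rfl⟩ <;>
        rcases pair_eq e2 with ⟨rfl, rfl⟩ | ⟨rfl, rfl⟩ <;> rw [← hg] <;> ring
    · have hc' : c b1 = c x1 := by
        revert hc k2 h2; cases c a1 <;> cases c x1 <;> cases c b1 <;> simp
      have hc2 : c b2 = c x1 := by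
        revert hc k3 h2; cases c a1 <;> cases c x1 <;> cases c b2 <;> simp
      have e1 : ({x1, x2} : Finset V) = {b1, b2} := by
        rw [← filt (c := c) (b := c x1) rfl h1 h2 h3, he,
          filt' (c := c) (b := c x1) hc (by rw [k1]; exact hc) hc' hc2]
      have hn : ∀ t : Bool, t ≠ c x1 → t = !c x1 := by
        intro t; cases t <;> cases c x1 <;> simp
      have e2 : ({y1, y2} : Finset V) = {a1, a2} := by
        rw [← filt' (c := c) (b := !c x1) (x1 := x1) (x2 := x2) (by simp) (by simp [h1])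
          (hn _ h2) (hn _ h3), he,
          filt (c := c) (b := !c x1) (hn _ hc) (by rw [k1]; exact hn _ hc)
          (by simp [hc']) (by simp [hc2])]
      rcases pair_eq e1 with ⟨rfl, rfl⟩ | ⟨rfl, rfl⟩ <;>
        rcases pair_eq e2 with ⟨rfl, rfl⟩ | ⟨rfl, rfl⟩ <;> rw [← hg] <;>
        simp only [gs x1, gs x2] <;> ring
  · intro h
    exact ⟨x1, x2, y1, y2, rfl, hx, hy, h1, h2, h3, h⟩


theorem four {a b c d : V} (hab : a ≠ b) (hac : a ≠ c) (had : a ≠ d) (hbc : b ≠ c)
    (hbd : b ≠ d) (hcd : c ≠ d) : ({a, b, c, d} : Finset V).card = 4 := by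
  rw [Finset.card_insert_of_notMem, Finset.card_insert_of_notMem,
    Finset.card_insert_of_notMem, Finset.card_singleton]
  · simpa using hcd
  · simp only [Finset.mem_insert, Finset.mem_singleton, not_or]; exact ⟨hbc, hbd⟩
  · simp only [Finset.mem_insert, Finset.mem_singleton, not_or]; exact ⟨hab, hac, had⟩

theorem adm_hyp {c : V → Bool} {g : V → V → ZMod 2} {e : Finset V} (h : Hyp c g e) :
    e.card = 4 ∧ ∀ v ∈ e, (e.filter (fun w => c w = c v)).card = 2 := by
  obtain ⟨x1, x2, y1, y2, rfl, hx, hy, k1, k2, k3, -⟩ := h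
  have n11 : x1 ≠ y1 := fun h => k2 (by rw [h])
  have n12 : x1 ≠ y2 := fun h => k3 (by rw [h])
  have n21 : x2 ≠ y1 := fun h => k2 (by rw [← h, k1])
  have n22 : x2 ≠ y2 := fun h => k3 (by rw [← h, k1])
  have hn : ∀ t : Bool, t ≠ c x1 → t = !c x1 := by
    intro t; cases t <;> cases c x1 <;> simp
  refine ⟨four hx n11 n12 n21 n22 hy, ?_⟩
  intro v hv
  have hv' : c v = c x1 ∨ c v = !c x1 := by
    cases c v <;> cases c x1 <;> simp
  rcases hv' with h | h
  · rw [h, filt rfl k1 k2 k3, Finset.card_pair hx]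
  · rw [h, filt' (by simp) (by simp [k1]) (hn _ k2) (hn _ k3), Finset.card_pair hy]

theorem split5 {c : V → Bool} {S : Finset V} (h5 : S.card = 5)
    (h3 : ∀ v ∈ S, (S.filter (fun w => c w = c v)).card ≤ 3) :
    ∃ x1 x2 x3 y1 y2, S = {x1, x2, x3, y1, y2} ∧ x1 ≠ x2 ∧ x1 ≠ x3 ∧ x2 ≠ x3 ∧ y1 ≠ y2 ∧
      c x2 = c x1 ∧ c x3 = c x1 ∧ c y1 ≠ c x1 ∧ c y2 ≠ c x1 := by
  have hb : ∀ b : Bool, (S.filter (fun w => c w = b)).card ≤ 3 := by
    intro b
    by_cases hne : (S.filter (fun w => c w = b)).Nonempty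
    · obtain ⟨v, hv⟩ := hne
      rw [Finset.mem_filter] at hv
      have := h3 v hv.1
      rw [hv.2] at this
      exact this
    · rw [Finset.not_nonempty_iff_eq_empty] at hne
      rw [hne]; simp
  have hsum : ∀ b : Bool, (S.filter (fun w => c w = b)).card + (S.filter (fun w => c w = !b)).card
      = 5 := by
    intro b
    rw [← h5, ← Finset.card_filter_add_card_filter_not (s := S) (fun w => c w = b)]
    congr 2
    apply Finset.filter_congr; intro x _; cases c x <;> cases b <;> simp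
  obtain ⟨b, hb3⟩ : ∃ b : Bool, (S.filter (fun w => c w = b)).card = 3 := by
    have h1 := hb true
    have h2 := hb false
    have h3 := hsum true
    simp only [Bool.not_true] at h3
    by_cases h : (S.filter (fun w => c w = true)).card = 3
    · exact ⟨true, h⟩
    · exact ⟨false, by omega⟩
  have hb2 : (S.filter (fun w => c w = !b)).card = 2 := by
    have := hsum b; omega
  obtain ⟨x1, x2, x3, h12, h13, h23, hX⟩ := Finset.card_eq_three.1 hb3
  obtain ⟨y1, y2, hy, hY⟩ := Finset.card_eq_two.1 hb2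
  have c1 : c x1 = b := by
    have : x1 ∈ S.filter (fun w => c w = b) := by rw [hX]; simp
    exact (Finset.mem_filter.1 this).2
  have c2 : c x2 = b := by
    have : x2 ∈ S.filter (fun w => c w = b) := by rw [hX]; simp
    exact (Finset.mem_filter.1 this).2
  have c3 : c x3 = b := by
    have : x3 ∈ S.filter (fun w => c w = b) := by rw [hX]; simp
    exact (Finset.mem_filter.1 this).2
  have d1 : c y1 = !b := by
    have : y1 ∈ S.filter (fun w => c w = !b) := by rw [hY]; simp
    exact (Finset.mem_filter.1 this).2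
  have d2 : c y2 = !b := by
    have : y2 ∈ S.filter (fun w => c w = !b) := by rw [hY]; simp
    exact (Finset.mem_filter.1 this).2
  refine ⟨x1, x2, x3, y1, y2, ?_, h12, h13, h23, hy, by rw [c1, c2], by rw [c1, c3],
    by rw [d1, c1]; simp, by rw [d2, c1]; simp⟩
  have hSS : S = S.filter (fun w => c w = b) ∪ S.filter (fun w => c w = !b) := by
    ext z
    simp only [Finset.mem_union, Finset.mem_filter]
    cases c z <;> cases b <;> simp
  rw [hSS, hX, hY]
  ext z
  simp only [Finset.mem_union, Finset.mem_insert, Finset.mem_singleton]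
  tauto

theorem even_hyp {c : V → Bool} {g : V → V → ZMod 2} (gs : ∀ x y, g x y = g y x)
    {H : Finset (Finset V)} (hH : ∀ e, e ∈ H ↔ Hyp c g e) {S : Finset V} (h5 : S.card = 5)
    (h3 : ∀ v ∈ S, (S.filter (fun w => c w = c v)).card ≤ 3) :
    Even (H.filter (fun e => e ⊆ S)).card := by
  obtain ⟨x1, x2, x3, y1, y2, rfl, h12, h13, h23, hy, k2, k3, l1, l2⟩ := split5 h5 h3
  rw [count (c := c) (fun e he => adm_hyp ((hH e).1 he)) h12 h13 h23 hy k2 k3 l1 l2]
  simp only [hH]
  rw [if_congr (hyp_iff gs h12 hy k2 l1 l2) rfl rfl,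
    if_congr (hyp_iff gs h13 hy k3 l1 l2) rfl rfl,
    if_congr (hyp_iff gs h23 hy (k3.trans k2.symm) (by rw [k2]; exact l1)
      (by rw [k2]; exact l2)) rfl rfl]
  have key : ∀ p q r : ZMod 2, Even ((if p + q = 1 then 1 else 0) + (if p + r = 1 then 1 else 0)
      + (if q + r = 1 then 1 else 0)) := by
    have : ∀ p q r : ZMod 2, ((if p + q = 1 then 1 else 0) + (if p + r = 1 then 1 else 0)
      + (if q + r = 1 then 1 else 0)) % 2 = 0 := by decide
    intro p q r
    rw [Nat.even_iff]
    convert this p q r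
  have := key (g x1 y1 + g x1 y2) (g x2 y1 + g x2 y2) (g x3 y1 + g x3 y2)
  simpa only [add_assoc] using this

/-- transfer of hyperedges along an embedding that changes `g` by a switching -/
theorem transfer {W : Type*} {cV : V → Bool} {cW : W → Bool} {gV : V → V → ZMod 2}
    {gW : W → W → ZMod 2} (f : V ↪ W) (hc : ∀ x y, cV x = cV y ↔ cW (f x) = cW (f y))
    (a : V → ZMod 2) (hg : ∀ x y, cV x ≠ cV y → gW (f x) (f y) = gV x y + a x + a y)
    (e : Finset V) : Hyp cV gV e ↔ Hyp cW gW (e.map f) := by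
  have two : (2 : ZMod 2) = 0 := by decide
  have hsum : ∀ x1 x2 y1 y2 : V, cV x2 = cV x1 → cV y1 ≠ cV x1 → cV y2 ≠ cV x1 →
      gW (f x1) (f y1) + gW (f x1) (f y2) + gW (f x2) (f y1) + gW (f x2) (f y2)
      = gV x1 y1 + gV x1 y2 + gV x2 y1 + gV x2 y2 := by
    intro x1 x2 y1 y2 k1 k2 k3
    rw [hg x1 y1 k2.symm, hg x1 y2 k3.symm, hg x2 y1 (by rw [k1]; exact k2.symm),
      hg x2 y2 (by rw [k1]; exact k3.symm)]
    linear_combination (a x1 + a x2 + a y1 + a y2) * two
  constructor
  · rintro ⟨x1, x2, y1, y2, rfl, hx, hy, k1, k2, k3, h⟩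
    refine ⟨f x1, f x2, f y1, f y2, ?_, f.injective.ne hx, f.injective.ne hy, (hc _ _).1 k1,
      fun h => k2 ((hc _ _).2 h), fun h => k3 ((hc _ _).2 h), ?_⟩
    · simp only [Finset.map_insert, Finset.map_singleton]
    · rw [hsum _ _ _ _ k1 k2 k3, h]
  · rintro ⟨u1, u2, v1, v2, he, hx, hy, k1, k2, k3, h⟩
    have m1 : u1 ∈ e.map f := by rw [he]; simp
    have m2 : u2 ∈ e.map f := by rw [he]; simp
    have m3 : v1 ∈ e.map f := by rw [he]; simp
    have m4 : v2 ∈ e.map f := by rw [he]; simp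
    rw [Finset.mem_map] at m1 m2 m3 m4
    obtain ⟨x1, -, rfl⟩ := m1
    obtain ⟨x2, -, rfl⟩ := m2
    obtain ⟨y1, -, rfl⟩ := m3
    obtain ⟨y2, -, rfl⟩ := m4
    have k1' := (hc _ _).2 k1
    have k2' : cV y1 ≠ cV x1 := fun h => k2 ((hc _ _).1 h)
    have k3' : cV y2 ≠ cV x1 := fun h => k3 ((hc _ _).1 h)
    refine ⟨x1, x2, y1, y2, ?_, fun h => hx (by rw [h]), fun h => hy (by rw [h]), k1', k2', k3', ?_⟩
    · apply Finset.map_injective f
      rw [he]
      simp only [Finset.map_insert, Finset.map_singleton]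
    · rw [← hsum _ _ _ _ k1' k2' k3', h]


theorem exists_class {r : V → V → Prop} (hr : Equivalence r)
    (h2 : ∀ a b c, r a b ∨ r b c ∨ r a c) : ∃ c : V → Bool, ∀ x y, r x y ↔ c x = c y := by
  by_cases hne : Nonempty V
  · obtain ⟨a⟩ := hne
    refine ⟨fun x => decide (r a x), fun x y => ?_⟩
    simp only [decide_eq_decide]
    constructor
    · intro h
      exact ⟨fun k => hr.trans k h, fun k => hr.trans k (hr.symm h)⟩
    · intro h
      by_cases k : r a x
      · exact hr.trans (hr.symm k) (h.1 k)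
      · have k' : ¬ r a y := fun t => k (h.2 t)
        rcases h2 a x y with t | t | t
        · exact absurd t k
        · exact t
        · exact absurd t k'
  · exact ⟨fun _ => true, fun x => absurd ⟨x⟩ hne⟩

/-- the defining function of a three-graph -/
theorem exists_fun {c : V → Bool} {H : Finset (Finset V)} (hH : Adm c H)
    (hev : ∀ S : Finset V, S.card = 5 → (∀ v ∈ S, (S.filter (fun w => c w = c v)).card ≤ 3) →
      Even (H.filter (fun e => e ⊆ S)).card) :
    ∃ g : V → V → ZMod 2, (∀ x y, g x y = g y x) ∧ ∀ e, e ∈ H ↔ Hyp c g e := by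
  have two : (2 : ZMod 2) = 0 := by decide
  -- the indicator
  let h : V → V → V → V → ZMod 2 := fun x1 x2 y1 y2 =>
    if ({x1, x2, y1, y2} : Finset V) ∈ H then 1 else 0
  have hx0 : ∀ x y1 y2, h x x y1 y2 = 0 := by
    intro x y1 y2
    simp only [h]
    rw [if_neg]
    intro hm
    have h4 := (hH _ hm).1
    have : ({x, x, y1, y2} : Finset V) = {x, y1, y2} := by simp
    rw [this] at h4
    have := Finset.card_le_three (a := x) (b := y1) (c := y2)
    omega
  have hy0 : ∀ x1 x2 y, h x1 x2 y y = 0 := by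
    intro x1 x2 y
    simp only [h]
    rw [if_neg]
    intro hm
    have h4 := (hH _ hm).1
    have : ({x1, x2, y, y} : Finset V) = {x1, x2, y} := by simp
    rw [this] at h4
    have := Finset.card_le_three (a := x1) (b := x2) (c := y)
    omega
  have hxs : ∀ x1 x2 y1 y2, h x1 x2 y1 y2 = h x2 x1 y1 y2 := by
    intro x1 x2 y1 y2
    simp only [h]
    rw [Finset.insert_comm x1 x2]
  have hys : ∀ x1 x2 y1 y2, h x1 x2 y1 y2 = h x1 x2 y2 y1 := by
    intro x1 x2 y1 y2
    simp only [h]
    rw [Finset.pair_comm y1 y2]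
  have hsw : ∀ x1 x2 y1 y2, h x1 x2 y1 y2 = h y1 y2 x1 x2 := by
    intro x1 x2 y1 y2
    have : ({x1, x2, y1, y2} : Finset V) = {y1, y2, x1, x2} := by
      ext z; simp only [Finset.mem_insert, Finset.mem_singleton]; tauto
    simp only [h]
    rw [this]
  -- cocycle condition
  have hco : ∀ x1 x2 x3 y1 y2, c x2 = c x1 → c x3 = c x1 → c y1 ≠ c x1 → c y2 ≠ c x1 →
      h x1 x2 y1 y2 + h x1 x3 y1 y2 + h x2 x3 y1 y2 = 0 := by
    intro x1 x2 x3 y1 y2 k2 k3 l1 l2
    by_cases hy : y1 = y2
    · subst hy; simp only [hy0]; simp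
    by_cases h12 : x1 = x2
    · subst h12
      rw [hx0]
      linear_combination (h x1 x3 y1 y2) * two
    by_cases h13 : x1 = x3
    · subst h13
      rw [hx0, hxs x2 x1]
      linear_combination (h x1 x2 y1 y2) * two
    by_cases h23 : x2 = x3
    · subst h23
      rw [hx0]
      linear_combination (h x1 x2 y1 y2) * two
    have hcount := count hH h12 h13 h23 hy k2 k3 l1 l2
    have n11 : x1 ≠ y1 := fun h => l1 (by rw [h])
    have n12 : x1 ≠ y2 := fun h => l2 (by rw [h])
    have n21 : x2 ≠ y1 := fun h => l1 (by rw [← h, k2])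
    have n22 : x2 ≠ y2 := fun h => l2 (by rw [← h, k2])
    have n31 : x3 ≠ y1 := fun h => l1 (by rw [← h, k3])
    have n32 : x3 ≠ y2 := fun h => l2 (by rw [← h, k3])
    have h5 := five h12 h13 n11 n12 h23 n21 n22 n31 n32 hy
    have he := hev _ h5 (by
      intro v hv
      have hv' : c v = c x1 ∨ c v = !c x1 := by
        cases c v <;> cases c x1 <;> simp
      have hn : ∀ t : Bool, t ≠ c x1 → t = !c x1 := by
        intro t; cases t <;> cases c x1 <;> simp
      rcases hv' with h | h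
      · have : ({x1, x2, x3, y1, y2} : Finset V).filter (fun w => c w = c v) ⊆ {x1, x2, x3} := by
          intro z hz
          simp only [Finset.mem_filter, Finset.mem_insert, Finset.mem_singleton] at hz ⊢
          rw [h] at hz
          rcases hz with ⟨rfl | rfl | rfl | rfl | rfl, hz⟩
          · left; rfl
          · right; left; rfl
          · right; right; rfl
          · exact absurd hz l1
          · exact absurd hz l2
        exact (Finset.card_le_card this).trans Finset.card_le_three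
      · have : ({x1, x2, x3, y1, y2} : Finset V).filter (fun w => c w = c v) ⊆ {y1, y2} := by
          intro z hz
          simp only [Finset.mem_filter, Finset.mem_insert, Finset.mem_singleton] at hz ⊢
          rw [h] at hz
          rcases hz with ⟨rfl | rfl | rfl | rfl | rfl, hz⟩
          · simp at hz
          · rw [k2] at hz; simp at hz
          · rw [k3] at hz; simp at hz
          · left; rfl
          · right; rfl
        exact (Finset.card_le_card this).trans (Finset.card_le_two.trans (by norm_num)))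
    rw [hcount] at he
    have hcast : (((if ({x1, x2, y1, y2} : Finset V) ∈ H then 1 else 0)
        + (if ({x1, x3, y1, y2} : Finset V) ∈ H then 1 else 0)
        + (if ({x2, x3, y1, y2} : Finset V) ∈ H then 1 else 0) : ℕ) : ZMod 2) = 0 := by
      rw [ZMod.natCast_eq_zero_iff_even]; exact he
    simp only [h]
    push_cast at hcast
    exact hcast
  have hH' : ∀ e, e ∈ H → ∃ x1 x2 y1 y2, e = {x1, x2, y1, y2} ∧ x1 ≠ x2 ∧ y1 ≠ y2 ∧
      c x1 = true ∧ c x2 = true ∧ c y1 = false ∧ c y2 = false :=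
    fun e he => quad_of_adm (hH e he).1 (hH e he).2
  by_cases hb : ∃ x0 y0, c x0 = true ∧ c y0 = false
  · obtain ⟨x0, y0, cx0, cy0⟩ := hb
    let F : V → V → ZMod 2 := fun x y => h x0 x y0 y
    have hF : ∀ x1 x2 y1 y2, c x1 = true → c x2 = true → c y1 = false → c y2 = false →
        F x1 y1 + F x1 y2 + F x2 y1 + F x2 y2 = h x1 x2 y1 y2 := by
      intro x1 x2 y1 y2 k1 k2 k3 k4
      simp only [F]
      have s1 : h x0 x1 y0 y1 + h x0 x1 y0 y2 + h x0 x1 y1 y2 = 0 := by
        rw [hsw x0 x1 y0 y1, hsw x0 x1 y0 y2, hsw x0 x1 y1 y2]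
        exact hco y0 y1 y2 x0 x1 (by rw [k3, cy0]) (by rw [k4, cy0]) (by rw [cx0, cy0]; simp)
          (by rw [k1, cy0]; simp)
      have s2 : h x0 x2 y0 y1 + h x0 x2 y0 y2 + h x0 x2 y1 y2 = 0 := by
        rw [hsw x0 x2 y0 y1, hsw x0 x2 y0 y2, hsw x0 x2 y1 y2]
        exact hco y0 y1 y2 x0 x2 (by rw [k3, cy0]) (by rw [k4, cy0]) (by rw [cx0, cy0]; simp)
          (by rw [k2, cy0]; simp)
      have s3 : h x0 x1 y1 y2 + h x0 x2 y1 y2 + h x1 x2 y1 y2 = 0 :=
        hco x0 x1 x2 y1 y2 (by rw [k1, cx0]) (by rw [k2, cx0]) (by rw [k3, cx0]; simp)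
          (by rw [k4, cx0]; simp)
      linear_combination s1 + s2 + s3 - (h x0 x1 y1 y2 + h x0 x2 y1 y2 + h x1 x2 y1 y2) * two
    refine ⟨fun x y => if c x = true ∧ c y = false then F x y
      else if c x = false ∧ c y = true then F y x else 0, ?_, ?_⟩
    · intro x y
      cases hx : c x <;> cases hy : c y <;> simp [hx, hy]
    · intro e
      have gs : ∀ x y, (fun x y => if c x = true ∧ c y = false then F x y
          else if c x = false ∧ c y = true then F y x else 0) x y
          = (fun x y => if c x = true ∧ c y = false then F x y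
          else if c x = false ∧ c y = true then F y x else 0) y x := by
        intro x y
        cases hx : c x <;> cases hy : c y <;> simp [hx, hy]
      have hkey : ∀ x1 x2 y1 y2, x1 ≠ x2 → y1 ≠ y2 → c x1 = true → c x2 = true → c y1 = false →
          c y2 = false → (({x1, x2, y1, y2} : Finset V) ∈ H ↔ Hyp c (fun x y =>
            if c x = true ∧ c y = false then F x y
            else if c x = false ∧ c y = true then F y x else 0) {x1, x2, y1, y2}) := by
        intro x1 x2 y1 y2 hx hy k1 k2 k3 k4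
        rw [hyp_iff gs hx hy (by rw [k1, k2]) (by rw [k3, k1]; simp) (by rw [k4, k1]; simp)]
        simp only [k1, k2, k3, k4, and_self, if_true]
        rw [hF x1 x2 y1 y2 k1 k2 k3 k4]
        simp only [h]
        by_cases hm : ({x1, x2, y1, y2} : Finset V) ∈ H
        · simp [hm]
        · simp [hm]
      constructor
      · intro he
        obtain ⟨x1, x2, y1, y2, rfl, hx, hy, k1, k2, k3, k4⟩ := hH' e he
        exact (hkey x1 x2 y1 y2 hx hy k1 k2 k3 k4).1 he
      · intro he
        obtain ⟨h4, h2⟩ := adm_hyp he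
        obtain ⟨x1, x2, y1, y2, rfl, hx, hy, k1, k2, k3, k4⟩ := quad_of_adm h4 h2
        exact (hkey x1 x2 y1 y2 hx hy k1 k2 k3 k4).2 he
  · refine ⟨fun _ _ => 0, fun _ _ => rfl, fun e => ⟨fun he => ?_, fun he => ?_⟩⟩
    · obtain ⟨x1, x2, y1, y2, rfl, hx, hy, k1, k2, k3, k4⟩ := hH' e he
      exact absurd ⟨x1, y1, k1, k3⟩ hb
    · obtain ⟨x1, x2, y1, y2, rfl, hx, hy, k1, k2, k3, h⟩ := he
      simp at h


/-- a partial map preserving hyperedges changes `g` by a switching -/
theorem exists_switch {c : V → Bool} {g : V → V → ZMod 2} (gs : ∀ x y, g x y = g y x)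
    {H : Finset (Finset V)} (hH : ∀ e, e ∈ H ↔ Hyp c g e) (S : Finset V) (p : V → V)
    (hp : Set.InjOn p (S : Set V))
    (hc : ∀ x ∈ S, ∀ y ∈ S, c x = c y ↔ c (p x) = c (p y))
    (he : ∀ e ⊆ S, e ∈ H ↔ e.image p ∈ H) :
    ∃ a : V → ZMod 2, ∀ x ∈ S, ∀ y ∈ S, c x ≠ c y → g (p x) (p y) = g x y + a x + a y := by
  have two : (2 : ZMod 2) = 0 := by decide
  have hrect : ∀ x1 ∈ S, ∀ x2 ∈ S, ∀ y1 ∈ S, ∀ y2 ∈ S, c x2 = c x1 → c y1 ≠ c x1 → c y2 ≠ c x1 →
      g (p x1) (p y1) + g (p x1) (p y2) + g (p x2) (p y1) + g (p x2) (p y2)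
        = g x1 y1 + g x1 y2 + g x2 y1 + g x2 y2 := by
    intro x1 hx1 x2 hx2 y1 hy1 y2 hy2 k1 k2 k3
    by_cases hx : x1 = x2
    · subst hx
      linear_combination (g (p x1) (p y1) + g (p x1) (p y2) - g x1 y1 - g x1 y2) * two
    by_cases hy : y1 = y2
    · subst hy
      linear_combination (g (p x1) (p y1) + g (p x2) (p y1) - g x1 y1 - g x2 y1) * two
    have hsub : ({x1, x2, y1, y2} : Finset V) ⊆ S := by
      intro z hz
      simp only [Finset.mem_insert, Finset.mem_singleton] at hz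
      rcases hz with rfl | rfl | rfl | rfl <;> assumption
    have h1 := he _ hsub
    rw [Finset.image_insert, Finset.image_insert, Finset.image_insert, Finset.image_singleton,
      hH, hH, hyp_iff gs hx hy k1 k2 k3,
      hyp_iff gs (fun h => hx (hp hx1 hx2 h)) (fun h => hy (hp hy1 hy2 h))
        ((hc _ hx2 _ hx1).1 k1) (fun h => k2 ((hc _ hy1 _ hx1).2 h))
        (fun h => k3 ((hc _ hy2 _ hx1).2 h))] at h1
    have h01 : ∀ s t : ZMod 2, (s = 1 ↔ t = 1) → t = s := by decide
    exact h01 _ _ h1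
  by_cases hb : ∃ x0 ∈ S, ∃ y0 ∈ S, c x0 ≠ c y0
  · obtain ⟨x0, hx0, y0, hy0, h0⟩ := hb
    let D : V → V → ZMod 2 := fun x y => g (p x) (p y) + g x y
    have hD : ∀ x ∈ S, ∀ y ∈ S, c x = c x0 → c y = c y0 → D x y = D x y0 + D x0 y + D x0 y0 := by
      intro x hx y hy k1 k2
      have := hrect x0 hx0 x hx y0 hy0 y hy k1 h0.symm (by rw [k2]; exact h0.symm)
      simp only [D]
      linear_combination this - (g (p x0) (p y0) + g (p x0) (p y) + g (p x) (p y0)
        - g x y) * two
    refine ⟨fun z => if c z = c x0 then D z y0 else D x0 z + D x0 y0, ?_⟩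
    have hn : ∀ t : Bool, t ≠ c x0 → t = c y0 := by
      intro t; revert h0; cases t <;> cases c x0 <;> cases c y0 <;> simp
    intro x hx y hy hxy
    by_cases hcx : c x = c x0
    · have hcy : c y ≠ c x0 := fun h => hxy (by rw [hcx, h])
      have := hD x hx y hy hcx (hn _ hcy)
      simp only [if_pos hcx, if_neg hcy]
      have e1 : g (p x) (p y) = D x y + g x y := by
        simp only [D]; linear_combination -(g x y) * two
      rw [e1, this]; ring
    · have hcy : c y = c x0 := by
        revert hcx hxy; cases c x <;> cases c y <;> cases c x0 <;> simp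
      have := hD y hy x hx hcy (hn _ hcx)
      simp only [if_pos hcy, if_neg hcx]
      have e1 : g (p x) (p y) = D y x + g x y := by
        simp only [D]; rw [gs (p x), gs x]; linear_combination -(g y x) * two
      rw [e1, this]; ring
  · refine ⟨fun _ => 0, fun x hx y hy hxy => absurd ⟨x, hx, y, hy, hxy⟩ hb⟩

/-- the vertex set of the extension -/
abbrev Ext (n : ℕ) := Bool × Fin n × (Fin n → ZMod 2)

/-- its defining function -/
def gE {n : ℕ} (u v : Ext n) : ZMod 2 := u.2.2 v.2.1 + v.2.2 u.2.1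

theorem gE_symm {n : ℕ} (u v : Ext n) : gE u v = gE v u := by
  simp only [gE]; ring

/-- the embedding of the three-graph -/
def embFun {n : ℕ} (c : Fin n → Bool) (g : Fin n → Fin n → ZMod 2) (x : Fin n) : Ext n :=
  (c x, x, fun j => if c x = true ∧ c j = false then g x j else 0)

theorem embFun_inj {n : ℕ} (c : Fin n → Bool) (g : Fin n → Fin n → ZMod 2) :
    Function.Injective (embFun c g) := by
  intro x y h
  simp only [embFun, Prod.mk.injEq] at h
  exact h.2.1

def emb {n : ℕ} (c : Fin n → Bool) (g : Fin n → Fin n → ZMod 2) : Fin n ↪ Ext n :=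
  ⟨embFun c g, embFun_inj c g⟩

theorem emb_apply {n : ℕ} (c : Fin n → Bool) (g : Fin n → Fin n → ZMod 2) (x : Fin n) :
    emb c g x = (c x, x, fun j => if c x = true ∧ c j = false then g x j else 0) := rfl

theorem gE_emb {n : ℕ} (c : Fin n → Bool) (g : Fin n → Fin n → ZMod 2)
    (gs : ∀ x y, g x y = g y x) (x y : Fin n) (h : c x ≠ c y) :
    gE (emb c g x) (emb c g y) = g x y := by
  simp only [gE, emb_apply]
  cases hx : c x <;> cases hy : c y
  · rw [hx, hy] at h; exact absurd rfl h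
  · simp [gs x y]
  · simp
  · rw [hx, hy] at h; exact absurd rfl h

/-- a shift -/
def shiftEquiv {n : ℕ} (s : Bool) (π : Fin n ≃ Fin n) (F : Bool → Fin n → Fin n → ZMod 2) :
    Ext n ≃ Ext n where
  toFun u := (xor u.1 s, π u.2.1, fun j => u.2.2 (π.symm j) + F u.1 u.2.1 (π.symm j))
  invFun u := (xor u.1 s, π.symm u.2.1,
    fun j => u.2.2 (π j) - F (xor u.1 s) (π.symm u.2.1) j)
  left_inv := by
    rintro ⟨b, i, χ⟩
    simp
  right_inv := by
    rintro ⟨b, i, χ⟩
    simp

theorem ext_main {n : ℕ} (c : Fin n → Bool) (g : Fin n → Fin n → ZMod 2)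
    (gs : ∀ x y, g x y = g y x) (S : Finset (Fin n)) (p : Fin n → Fin n)
    (hp : Set.InjOn p (S : Set (Fin n)))
    (hc : ∀ x ∈ S, ∀ y ∈ S, c x = c y ↔ c (p x) = c (p y))
    (a : Fin n → ZMod 2)
    (ha : ∀ x ∈ S, ∀ y ∈ S, c x ≠ c y → g (p x) (p y) = g x y + a x + a y) :
    ∃ (σ : Ext n ≃ Ext n) (A : Ext n → ZMod 2),
      (∀ u v, u.1 = v.1 ↔ (σ u).1 = (σ v).1) ∧
      (∀ u v, u.1 ≠ v.1 → gE (σ u) (σ v) = gE u v + A u + A v) ∧
      ∀ x ∈ S, σ (emb c g x) = emb c g (p x) := by
  have two : (2 : ZMod 2) = 0 := by decide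
  -- the permutation
  obtain ⟨π, hπ⟩ : ∃ π : Fin n ≃ Fin n, ∀ i ∈ S, π i = p i := by
    obtain ⟨G, hG⟩ := Finset.exists_equiv_extend_of_card_eq (α := Fin n) (β := Fin n)
      (t := Finset.univ) (by simp) (s := S) (f := p) (Finset.subset_univ _) hp
    refine ⟨G.trans (Equiv.subtypeUnivEquiv (fun x => Finset.mem_univ x)), fun i hi => ?_⟩
    simpa using hG i hi
  -- the class shift
  obtain ⟨s, hs⟩ : ∃ s : Bool, ∀ x ∈ S, c (p x) = xor (c x) s := by
    by_cases hne : S.Nonempty
    · obtain ⟨x0, hx0⟩ := hne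
      refine ⟨xor (c x0) (c (p x0)), fun x hx => ?_⟩
      have := hc x hx x0 hx0
      revert this
      cases c x <;> cases c x0 <;> cases c (p x) <;> cases c (p x0) <;> simp
    · refine ⟨false, fun x hx => absurd ⟨x, hx⟩ hne⟩
  let χ : Fin n → Fin n → ZMod 2 := fun x => (emb c g x).2.2
  let M : Fin n → Fin n → ZMod 2 := fun x j => χ (p x) (π j) + χ x j
  let act : Bool → Fin n → Prop := fun b i => i ∈ S ∧ b = c i
  let α : Bool → Fin n → ZMod 2 := fun b i => if act b i then a i else 0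
  let F : Bool → Fin n → Fin n → ZMod 2 := fun b i j =>
    if act b i then M i j else if act (!b) j then M j i + α (!b) j else 0
  have hM : ∀ x ∈ S, ∀ y ∈ S, c x ≠ c y → M x y + M y x = a x + a y := by
    intro x hx y hy hxy
    have h1 := gE_emb c g gs x y hxy
    have h2 := gE_emb c g gs (p x) (p y) (fun h => hxy ((hc x hx y hy).2 h))
    have h3 := ha x hx y hy hxy
    simp only [gE] at h1 h2
    have h1' : χ x y + χ y x = g x y := h1
    have h2' : χ (p x) (p y) + χ (p y) (p x) = g (p x) (p y) := h2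
    simp only [M]
    rw [hπ x hx, hπ y hy]
    linear_combination h1' + h2' + h3 + (g x y) * two
  have hF : ∀ b i j, F b i j + F (!b) j i = α b i + α (!b) j := by
    intro b i j
    by_cases h1 : act b i
    · by_cases h2 : act (!b) j
      · simp only [F, α, if_pos h1, if_pos h2]
        apply hM i h1.1 j h2.1
        rw [← h1.2, ← h2.2]; simp
      · simp only [F, α, if_pos h1, if_neg h2, Bool.not_not]
        linear_combination (M i j) * two
    · by_cases h2 : act (!b) j
      · simp only [F, α, if_neg h1, if_pos h2]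
        linear_combination (M j i) * two
      · simp only [F, α, if_neg h1, if_neg h2, Bool.not_not]
  refine ⟨shiftEquiv s π F, fun u => α u.1 u.2.1, ?_, ?_, ?_⟩
  · rintro ⟨b, i, u⟩ ⟨b', j, v⟩
    simp only [shiftEquiv, Equiv.coe_fn_mk]
    cases b <;> cases b' <;> cases s <;> simp
  · rintro ⟨b, i, u⟩ ⟨b', j, v⟩ hb
    simp only [shiftEquiv, Equiv.coe_fn_mk, gE, Equiv.symm_apply_apply]
    have hb' : b' = !b := by
      revert hb; cases b <;> cases b' <;> simp
    subst hb'
    have := hF b i j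
    linear_combination this
  · intro x hx
    have h1 : act (c x) x := ⟨hx, rfl⟩
    apply Prod.ext
    · simp only [shiftEquiv, Equiv.coe_fn_mk, emb_apply]
      rw [hs x hx]
    apply Prod.ext
    · simp only [shiftEquiv, Equiv.coe_fn_mk, emb_apply]
      exact hπ x hx
    · funext j
      show χ x (π.symm j) + F (c x) x (π.symm j) = χ (p x) j
      simp only [F, if_pos h1, M, Equiv.apply_symm_apply]
      linear_combination (χ x (π.symm j)) * two

end Pool.Agent.ULead.TG
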