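import Mathlib

set_option autoImplicit false

/-!
# Arbitrarily long extremal square-free permutations

The permutation of length `64 * 2 ^ s + 21` is a paperfolding-like middle part `f`, preceded by twelve
special entries and followed by their images under the rotation by 180 degrees.
-/

namespace Pool.Agent.ULead.ExtSq

/-- two adjacent order-isomorphic blocks of length `l`, starting at `i` -/
def Sq {α : Type} [LT α] (G : ℕ → α) (i l : ℕ) : Prop :=
  ∀ a < l, ∀ b < l, (G (i + a) < G (i + b) ↔ G (i + l + a) < G (i + l + b))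

/-- the middle part, on `0 < m < 2 ^ r` -/
def f : ℕ → ℕ → ℤ
  | 0, _ => 0
  | r + 1, m => if m % 2 = 0 then f r (m / 2)
      else if r = 0 then 0
      else if m % 4 = 1 then (m : ℤ) - 4 * 2 ^ (r + 1)
      else 3 * 2 ^ (r + 1) + (m : ℤ)

lemma f_even (r m : ℕ) (h : m % 2 = 0) : f (r + 1) m = f r (m / 2) := by
  simp [f, h]

lemma f_one (r m : ℕ) (hr : r ≠ 0) (h : m % 4 = 1) : f (r + 1) m = (m : ℤ) - 4 * 2 ^ (r + 1) := by
  have h2 : m % 2 ≠ 0 := by omega
  simp [f, h2, hr, h]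

lemma f_three (r m : ℕ) (hr : r ≠ 0) (h : m % 4 = 3) : f (r + 1) m = 3 * 2 ^ (r + 1) + (m : ℤ) := by
  have h2 : m % 2 ≠ 0 := by omega
  have h3 : m % 4 ≠ 1 := by omega
  simp [f, h2, hr, h3]

lemma f_bound : ∀ (r m : ℕ), 0 < m → m < 2 ^ r → -(4 * 2 ^ r) < f r m ∧ f r m < 4 * 2 ^ r := by
  intro r
  induction r with
  | zero => intro m h1 h2; simp at h2; omega
  | succ r ih =>
    intro m h1 h2
    have hp : (2 : ℤ) ^ (r + 1) = 2 * 2 ^ r := by ring
    have hpos : (0 : ℤ) < 2 ^ r := by positivity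
    have h2' : (m : ℤ) < 2 * 2 ^ r := by
      have : (m : ℤ) < ((2 ^ (r + 1) : ℕ) : ℤ) := by exact_mod_cast h2
      rw [Nat.cast_pow] at this
      push_cast at this
      linarith
    rcases Nat.even_or_odd m with he | ho
    · have h3 : m % 2 = 0 := Nat.even_iff.1 he
      rw [f_even r m h3]
      have h4 := ih (m / 2) (by omega) (by rw [pow_succ] at h2; omega)
      constructor <;> linarith [h4.1, h4.2]
    · have h3 : m % 2 = 1 := Nat.odd_iff.1 ho
      rcases Nat.eq_zero_or_pos r with hr | hr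
      · subst hr
        simp [f, h3]
      · rcases (show m % 4 = 1 ∨ m % 4 = 3 by omega) with h4 | h4
        · rw [f_one r m (by omega) h4]
          constructor
          · have : (0 : ℤ) < m := by exact_mod_cast h1
            linarith
          · linarith
        · rw [f_three r m (by omega) h4]
          have : (0 : ℤ) < m := by exact_mod_cast h1
          constructor <;> linarith

lemma f_mid (r m : ℕ) (h0 : 0 < m) (h1 : m < 2 ^ (r + 1)) (h : m % 2 = 0) :
    -(2 * 2 ^ (r + 1)) < f (r + 1) m ∧ f (r + 1) m < 2 * 2 ^ (r + 1) := by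
  rw [f_even r m h]
  have hp : (2 : ℤ) ^ (r + 1) = 2 * 2 ^ r := by ring
  have h4 := f_bound r (m / 2) (by omega) (by rw [pow_succ] at h1; omega)
  constructor <;> linarith [h4.1, h4.2]

lemma f_anti : ∀ (r m : ℕ), 0 < m → m < 2 ^ r → f r (2 ^ r - m) = - f r m := by
  intro r
  induction r with
  | zero => intro m h1 h2; simp at h2; omega
  | succ r ih =>
    intro m h1 h2
    have hp : 2 ^ (r + 1) = 2 * 2 ^ r := by ring
    rcases Nat.even_or_odd m with he | ho
    · have h3 : m % 2 = 0 := Nat.even_iff.1 he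
      rw [f_even r m h3, f_even r _ (by omega), ← ih (m / 2) (by omega) (by omega)]
      congr 1
      omega
    · have h3 : m % 2 = 1 := Nat.odd_iff.1 ho
      rcases Nat.eq_zero_or_pos r with hr | hr
      · subst hr
        have : m = 1 := by simp at h2; omega
        subst this
        simp [f]
      · obtain ⟨q, rfl⟩ : ∃ q, r = q + 1 := ⟨r - 1, by omega⟩
        have hp2 : 2 ^ (q + 1 + 1) = 4 * 2 ^ q := by ring
        have hc : ((2 ^ (q + 1 + 1) - m : ℕ) : ℤ) = 2 ^ (q + 1 + 1) - m := by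
          rw [Nat.cast_sub h2.le]; push_cast; ring
        rcases (show m % 4 = 1 ∨ m % 4 = 3 by omega) with h4 | h4
        · rw [f_one (q + 1) m (by omega) h4, f_three (q + 1) _ (by omega) (by omega), hc]
          ring
        · rw [f_three (q + 1) m (by omega) h4, f_one (q + 1) _ (by omega) (by omega), hc]
          ring

/-- the shape of the middle part -/
lemma f_shape (r m : ℕ) (h0 : 0 < m) (h1 : m + 1 < 2 ^ r) :
    f r m < f r (m + 1) ↔ (m % 4 = 1 ∨ m % 4 = 2) := by
  obtain ⟨q, rfl⟩ : ∃ q, r = q + 2 := by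
    rcases r with _ | _ | r
    · simp at h1
    · simp at h1; omega
    · exact ⟨r, rfl⟩
  have hpos : (0 : ℤ) < 2 ^ (q + 1 + 1) := by positivity
  have hm : (m : ℤ) + 1 < 2 ^ (q + 1 + 1) := by
    have : ((m + 1 : ℕ) : ℤ) < ((2 ^ (q + 1 + 1) : ℕ) : ℤ) := by exact_mod_cast h1
    push_cast at this
    exact this
  have hm0 : (0 : ℤ) < m := by exact_mod_cast h0
  rcases (show m % 4 = 0 ∨ m % 4 = 1 ∨ m % 4 = 2 ∨ m % 4 = 3 by omega) with h | h | h | h
  · have e1 := f_mid (q + 1) m h0 (Nat.lt_of_succ_lt h1) (by omega)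
    have e2 := f_one (q + 1) (m + 1) (by omega) (by omega)
    rw [show q + 2 = q + 1 + 1 from rfl, e2]
    push_cast
    constructor
    · intro h'; linarith [e1.1, e1.2]
    · intro h'; omega
  · have e1 := f_one (q + 1) m (by omega) (by omega)
    have e2 := f_mid (q + 1) (m + 1) (by omega) h1 (by omega)
    rw [show q + 2 = q + 1 + 1 from rfl, e1]
    constructor
    · intro h'; omega
    · intro h'; linarith [e2.1, e2.2]
  · have e1 := f_mid (q + 1) m h0 (Nat.lt_of_succ_lt h1) (by omega)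
    have e2 := f_three (q + 1) (m + 1) (by omega) (by omega)
    rw [show q + 2 = q + 1 + 1 from rfl, e2]
    push_cast
    constructor
    · intro h'; omega
    · intro h'; linarith [e1.1, e1.2]
  · have e1 := f_three (q + 1) m (by omega) (by omega)
    have e2 := f_mid (q + 1) (m + 1) (by omega) h1 (by omega)
    rw [show q + 2 = q + 1 + 1 from rfl, e1]
    constructor
    · intro h'; linarith [e2.1, e2.2]
    · intro h'; omega

/-- squares respect the shape only if their length is divisible by four -/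
lemma four_dvd {α : Type} [LT α] (G : ℕ → α) (c lo hi : ℕ)
    (hs : ∀ k, lo ≤ k → k + 1 < hi → (G k < G (k + 1) ↔ ((k + c) % 4 = 0 ∨ (k + c) % 4 = 1)))
    (i l : ℕ) (hl : 2 ≤ l) (hi1 : lo ≤ i) (hi2 : i + 2 * l ≤ hi) (h : Sq G i l) : l % 4 = 0 := by
  by_contra h4
  have e0 := h 0 (by omega) 1 (by omega)
  have s0 := hs (i + 0) (by omega) (by omega)
  have s0' := hs (i + l + 0) (by omega) (by omega)
  rw [show i + 0 + 1 = i + 1 from rfl] at s0
  rw [show i + l + 0 + 1 = i + l + 1 from rfl] at s0'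
  rw [s0, s0'] at e0
  by_cases h2 : l = 2
  · subst h2; omega
  · have e1 := h 1 (by omega) 2 (by omega)
    have s1 := hs (i + 1) (by omega) (by omega)
    have s1' := hs (i + l + 1) (by omega) (by omega)
    rw [show i + 1 + 1 = i + 2 from rfl] at s1
    rw [show i + l + 1 + 1 = i + l + 2 from rfl] at s1'
    rw [s1, s1'] at e1
    omega

/-- the middle part is square-free -/
lemma f_sqfree : ∀ (r s l : ℕ), 2 ≤ l → 1 ≤ s → s + 2 * l ≤ 2 ^ r → ¬ Sq (f r) s l := by
  intro r
  induction r with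
  | zero => intro s l hl hs h; simp at h; omega
  | succ r ih =>
    intro s l hl hs h hsq
    have h4 : l % 4 = 0 := four_dvd (f (r + 1)) 3 1 (2 ^ (r + 1))
      (fun k hk hk1 => by rw [f_shape (r + 1) k (by omega) hk1]; omega) s l hl hs h hsq
    have hp : 2 ^ (r + 1) = 2 * 2 ^ r := by ring
    refine ih ((s + 1) / 2) (l / 2) (by omega) (by omega) (by omega) ?_
    intro a ha b hb
    have hg : ∀ m, f r m = f (r + 1) (2 * m) := by
      intro m
      rw [f_even r (2 * m) (by omega)]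
      congr 1
      omega
    rw [hg, hg, hg, hg]
    rcases Nat.even_or_odd s with he | ho
    · have h3 : s % 2 = 0 := Nat.even_iff.1 he
      have := hsq (2 * a) (by omega) (2 * b) (by omega)
      rw [show 2 * ((s + 1) / 2 + a) = s + 2 * a by omega, show 2 * ((s + 1) / 2 + b) = s + 2 * b by omega,
        show 2 * ((s + 1) / 2 + l / 2 + a) = s + l + 2 * a by omega,
        show 2 * ((s + 1) / 2 + l / 2 + b) = s + l + 2 * b by omega]
      exact this
    · have h3 : s % 2 = 1 := Nat.odd_iff.1 ho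
      have := hsq (2 * a + 1) (by omega) (2 * b + 1) (by omega)
      rw [show 2 * ((s + 1) / 2 + a) = s + (2 * a + 1) by omega,
        show 2 * ((s + 1) / 2 + b) = s + (2 * b + 1) by omega,
        show 2 * ((s + 1) / 2 + l / 2 + a) = s + l + (2 * a + 1) by omega,
        show 2 * ((s + 1) / 2 + l / 2 + b) = s + l + (2 * b + 1) by omega]
      exact this

/-- the twelve special entries -/
def A (M : ℤ) : ℕ → ℤ
  | 0 => -160 * M - 4
  | 1 => 320 * M + 1
  | 2 => 320 * M
  | 3 => -160 * M - 3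
  | 4 => -160 * M
  | 5 => 192 * M + 8
  | 6 => 192 * M + 5
  | 7 => -160 * M - 2
  | 8 => 192 * M + 6
  | 9 => 320 * M + 2
  | 10 => 192 * M + 4
  | _ => -160 * M - 1

/-- the permutation (its values, on `k < 64 * 2 ^ s + 21`) -/
def F (s k : ℕ) : ℤ :=
  if k < 12 then A (2 ^ s) k
  else if k < 64 * 2 ^ s + 9 then f (s + 6) (k - 10)
  else - A (2 ^ s) (64 * 2 ^ s + 20 - k)

lemma pow6 (s : ℕ) : 2 ^ (s + 6) = 64 * 2 ^ s := by rw [pow_add]; ring

lemma F_anti (s k : ℕ) (hk : k < 64 * 2 ^ s + 21) : F s (64 * 2 ^ s + 20 - k) = - F s k := by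
  have hpos : 0 < 2 ^ s := by positivity
  unfold F
  by_cases h1 : k < 12
  · rw [if_neg (by omega), if_neg (by omega), if_pos h1]
    congr 2
    omega
  · by_cases h2 : k < 64 * 2 ^ s + 9
    · rw [if_neg (by omega), if_pos (by omega), if_neg h1, if_pos h2]
      rw [← f_anti (s + 6) (k - 10) (by omega) (by rw [pow6]; omega), pow6]
      congr 1
      omega
    · rw [if_pos (by omega), if_neg h1, if_neg h2, neg_neg]

lemma F_mid (s k : ℕ) (h1 : 12 ≤ k) (h2 : k < 64 * 2 ^ s + 9) : F s k = f (s + 6) (k - 10) := by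
  unfold F
  rw [if_neg (by omega), if_pos h2]

lemma F_vals (s : ℕ) :
    F s 0 = -160 * 2 ^ s - 4 ∧ F s 1 = 320 * 2 ^ s + 1 ∧ F s 2 = 320 * 2 ^ s ∧
    F s 3 = -160 * 2 ^ s - 3 ∧ F s 4 = -160 * 2 ^ s ∧ F s 5 = 192 * 2 ^ s + 8 ∧
    F s 6 = 192 * 2 ^ s + 5 ∧ F s 7 = -160 * 2 ^ s - 2 ∧ F s 8 = 192 * 2 ^ s + 6 ∧
    F s 9 = 320 * 2 ^ s + 2 ∧ F s 10 = 192 * 2 ^ s + 4 ∧ F s 11 = -160 * 2 ^ s - 1 := by
  simp [F, A]

lemma F_vals' (s : ℕ) :
    F s 12 = 1 - 128 * 2 ^ s ∧ F s 13 = 192 * 2 ^ s + 3 ∧ F s 14 = 1 - 64 * 2 ^ s ∧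
    F s 15 = 5 - 256 * 2 ^ s ∧ F s 16 = 96 * 2 ^ s + 3 ∧ F s 17 = 192 * 2 ^ s + 7 ∧
    F s 18 = 1 - 32 * 2 ^ s ∧ F s 19 = 9 - 256 * 2 ^ s ∧ F s 20 = 5 - 128 * 2 ^ s ∧
    F s 21 = 192 * 2 ^ s + 11 ∧ F s 22 = 48 * 2 ^ s + 3 ∧ F s 23 = 13 - 256 * 2 ^ s ∧
    F s 24 = 96 * 2 ^ s + 7 ∧ F s 25 = 192 * 2 ^ s + 15 ∧ F s 26 = 1 - 16 * 2 ^ s ∧
    F s 27 = 17 - 256 * 2 ^ s ∧ F s 28 = 9 - 128 * 2 ^ s ∧ F s 29 = 192 * 2 ^ s + 19 := by
  have hpos : 0 < 2 ^ s := by positivity
  have key : ∀ k, 12 ≤ k → k < 30 → F s k = f (s + 6) (k - 10) := fun k h1 h2 =>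
    F_mid s k h1 (by omega)
  rw [key 12 (by omega) (by omega), key 13 (by omega) (by omega), key 14 (by omega) (by omega),
    key 15 (by omega) (by omega), key 16 (by omega) (by omega), key 17 (by omega) (by omega),
    key 18 (by omega) (by omega), key 19 (by omega) (by omega), key 20 (by omega) (by omega),
    key 21 (by omega) (by omega), key 22 (by omega) (by omega), key 23 (by omega) (by omega),
    key 24 (by omega) (by omega), key 25 (by omega) (by omega), key 26 (by omega) (by omega),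
    key 27 (by omega) (by omega), key 28 (by omega) (by omega), key 29 (by omega) (by omega)]
  simp only [Nat.reduceSub]
  refine ⟨?_, ?_, ?_, ?_, ?_, ?_, ?_, ?_, ?_, ?_, ?_, ?_, ?_, ?_, ?_, ?_, ?_, ?_⟩ <;>
  · simp [f, pow_succ]
    ring

end Pool.Agent.ULead.ExtSq
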