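import Pool.Agent.ULead.ExtSq

set_option autoImplicit false

namespace Pool.Agent.ULead.ExtSq

/-- reversal and negation preserve squares -/
lemma Sq.rot {G : ℕ → ℤ} {n i l : ℕ} (h : Sq G i l) (hn : i + 2 * l ≤ n)
    (ha : ∀ k < n, G (n - 1 - k) = - G k) : Sq G (n - i - 2 * l) l := by
  intro a hal b hbl
  have h1 := h (l - 1 - b) (by omega) (l - 1 - a) (by omega)
  have e1 : G (n - i - 2 * l + a) = - G (i + l + (l - 1 - a)) := by
    rw [← ha _ (by omega)]; congr 1; omega
  have e2 : G (n - i - 2 * l + b) = - G (i + l + (l - 1 - b)) := by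
    rw [← ha _ (by omega)]; congr 1; omega
  have e3 : G (n - i - 2 * l + l + a) = - G (i + (l - 1 - a)) := by
    rw [← ha _ (by omega)]; congr 1; omega
  have e4 : G (n - i - 2 * l + l + b) = - G (i + (l - 1 - b)) := by
    rw [← ha _ (by omega)]; congr 1; omega
  rw [e1, e2, e3, e4, neg_lt_neg_iff, neg_lt_neg_iff]
  exact h1.symm

lemma F_shape_left (s k : ℕ) (hk : k ≤ 64 * 2 ^ s + 7) :
    F s k < F s (k + 1) ↔ ((k + 1) % 4 = 0 ∨ (k + 1) % 4 = 1) := by
  have hpos : (0 : ℤ) < 2 ^ s := by positivity
  have hpos' : 0 < 2 ^ s := by positivity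
  by_cases h : k < 12
  · obtain ⟨v0, v1, v2, v3, v4, v5, v6, v7, v8, v9, v10, v11⟩ := F_vals s
    obtain ⟨v12, -⟩ := F_vals' s
    interval_cases k <;> simp only [v0, v1, v2, v3, v4, v5, v6, v7, v8, v9, v10, v11, v12, Nat.reduceAdd] <;>
      constructor <;> intro h' <;> first | (exfalso; linarith) | linarith | (norm_num; done) | (norm_num at h'; done) | omega
  · rw [F_mid s k (by omega) (by omega), F_mid s (k + 1) (by omega) (by omega),
      show k + 1 - 10 = (k - 10) + 1 by omega, f_shape (s + 6) (k - 10) (by omega) (by rw [pow6]; omega)]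
    omega

lemma F_shape (s k : ℕ) (hk : k + 1 < 64 * 2 ^ s + 21) :
    F s k < F s (k + 1) ↔ ((k + 1) % 4 = 0 ∨ (k + 1) % 4 = 1) := by
  have hpos' : 0 < 2 ^ s := by positivity
  by_cases h : k ≤ 64 * 2 ^ s + 7
  · exact F_shape_left s k h
  · have h1 := F_anti s k (by omega)
    have h2 := F_anti s (k + 1) hk
    have h3 := F_shape_left s (64 * 2 ^ s + 20 - (k + 1)) (by omega)
    rw [show 64 * 2 ^ s + 20 - (k + 1) + 1 = 64 * 2 ^ s + 20 - k by omega] at h3
    rw [h2, h1, neg_lt_neg_iff] at h3
    rw [h3]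
    omega

/-- squares starting in the left part -/
lemma F_sq_left (s i l : ℕ) (hl : 2 ≤ l) (hi : i ≤ 11) (hil : i + 2 * l ≤ 64 * 2 ^ s + 21) :
    ¬ Sq (F s) i l := by
  intro h
  have hpos : (0 : ℤ) < 2 ^ s := by positivity
  have hpos' : 0 < 2 ^ s := by positivity
  have h4 : l % 4 = 0 := four_dvd (F s) 1 0 (64 * 2 ^ s + 21)
    (fun k _ hk => F_shape s k hk) i l hl (by omega) hil h
  obtain ⟨k, rfl⟩ : ∃ k, l = 4 * k := ⟨l / 4, by omega⟩
  obtain ⟨v0, v1, v2, v3, v4, v5, v6, v7, v8, v9, v10, v11⟩ := F_vals s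
  obtain ⟨v12, v13, v14, v15, v16, v17, v18, v19, v20, v21, v22, v23, v24, v25, v26, v27, v28, v29⟩ :=
    F_vals' s
  by_cases h15 : i + 4 * k ≤ 15
  · have hk3 : k ≤ 3 := by omega
    have hk1 : 1 ≤ k := by omega
    interval_cases k
    · -- l = 4
      interval_cases i
      · have := h 0 (by omega) 3 (by omega); simp only [Nat.reduceAdd, Nat.reduceMul, v0, v3, v4, v7] at this; omega
      · have := h 1 (by omega) 3 (by omega); simp only [Nat.reduceAdd, Nat.reduceMul, v2, v4, v6, v8] at this; omega
      · have := h 0 (by omega) 2 (by omega); simp only [Nat.reduceAdd, Nat.reduceMul, v2, v4, v6, v8] at this; omega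
      · have := h 1 (by omega) 3 (by omega); simp only [Nat.reduceAdd, Nat.reduceMul, v4, v6, v8, v10] at this; omega
      · have := h 0 (by omega) 2 (by omega); simp only [Nat.reduceAdd, Nat.reduceMul, v4, v6, v8, v10] at this; omega
      · have := h 1 (by omega) 3 (by omega); simp only [Nat.reduceAdd, Nat.reduceMul, v6, v8, v10, v12] at this; omega
      · have := h 0 (by omega) 2 (by omega); simp only [Nat.reduceAdd, Nat.reduceMul, v6, v8, v10, v12] at this; omega
      · have := h 1 (by omega) 3 (by omega); simp only [Nat.reduceAdd, Nat.reduceMul, v8, v10, v12, v14] at this; omega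
      · have := h 0 (by omega) 2 (by omega); simp only [Nat.reduceAdd, Nat.reduceMul, v8, v10, v12, v14] at this; omega
      · have := h 1 (by omega) 3 (by omega); simp only [Nat.reduceAdd, Nat.reduceMul, v10, v12, v14, v16] at this; omega
      · have := h 0 (by omega) 2 (by omega); simp only [Nat.reduceAdd, Nat.reduceMul, v10, v12, v14, v16] at this; omega
      · have := h 1 (by omega) 3 (by omega); simp only [Nat.reduceAdd, Nat.reduceMul, v12, v14, v16, v18] at this; omega
    · -- l = 8
      have hi7 : i ≤ 7 := by omega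
      interval_cases i
      · have := h 0 (by omega) 2 (by omega); simp only [Nat.reduceAdd, Nat.reduceMul, v0, v2, v8, v10] at this; omega
      · have := h 2 (by omega) 6 (by omega); simp only [Nat.reduceAdd, Nat.reduceMul, v3, v7, v11, v15] at this; omega
      · have := h 1 (by omega) 5 (by omega); simp only [Nat.reduceAdd, Nat.reduceMul, v3, v7, v11, v15] at this; omega
      · have := h 0 (by omega) 4 (by omega); simp only [Nat.reduceAdd, Nat.reduceMul, v3, v7, v11, v15] at this; omega
      · have := h 2 (by omega) 6 (by omega); simp only [Nat.reduceAdd, Nat.reduceMul, v6, v10, v14, v18] at this; omega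
      · have := h 1 (by omega) 5 (by omega); simp only [Nat.reduceAdd, Nat.reduceMul, v6, v10, v14, v18] at this; omega
      · have := h 4 (by omega) 7 (by omega); simp only [Nat.reduceAdd, Nat.reduceMul, v10, v13, v18, v21] at this; omega
      · have := h 3 (by omega) 6 (by omega); simp only [Nat.reduceAdd, Nat.reduceMul, v10, v13, v18, v21] at this; omega
    · -- l = 12
      have hi3 : i ≤ 3 := by omega
      interval_cases i
      · have := h 2 (by omega) 4 (by omega); simp only [Nat.reduceAdd, Nat.reduceMul, v2, v4, v14, v16] at this; omega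
      · have := h 1 (by omega) 3 (by omega); simp only [Nat.reduceAdd, Nat.reduceMul, v2, v4, v14, v16] at this; omega
      · have := h 0 (by omega) 2 (by omega); simp only [Nat.reduceAdd, Nat.reduceMul, v2, v4, v14, v16] at this; omega
      · have := h 1 (by omega) 3 (by omega); simp only [Nat.reduceAdd, Nat.reduceMul, v4, v6, v16, v18] at this; omega
  · -- the marker
    have h1 := h (11 - i) (by omega) (15 - i) (by omega)
    rw [show i + (11 - i) = 11 by omega, show i + (15 - i) = 15 by omega,
      show i + 4 * k + (11 - i) = 11 + 4 * k by omega, show i + 4 * k + (15 - i) = 15 + 4 * k by omega,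
      v11, v15] at h1
    have h2 : F s (11 + 4 * k) < F s (15 + 4 * k) := by
      rw [F_mid s _ (by omega) (by omega), F_mid s _ (by omega) (by omega),
        f_one (s + 5) _ (by omega) (by omega), f_one (s + 5) _ (by omega) (by omega)]
      have : ((11 + 4 * k - 10 : ℕ) : ℤ) < ((15 + 4 * k - 10 : ℕ) : ℤ) := by
        exact_mod_cast (show 11 + 4 * k - 10 < 15 + 4 * k - 10 by omega)
      linarith
    have h3 := h1.2 h2
    linarith

lemma F_sqfree (s i l : ℕ) (hl : 2 ≤ l) (hil : i + 2 * l ≤ 64 * 2 ^ s + 21) : ¬ Sq (F s) i l := by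
  intro h
  by_cases hi : i ≤ 11
  · exact F_sq_left s i l hl hi hil h
  · by_cases hr : i + 2 * l ≤ 64 * 2 ^ s + 9
    · refine f_sqfree (s + 6) (i - 10) l hl (by omega) (by rw [pow6]; omega) ?_
      intro a ha b hb
      have := h a ha b hb
      rw [F_mid s _ (by omega) (by omega), F_mid s _ (by omega) (by omega),
        F_mid s _ (by omega) (by omega), F_mid s _ (by omega) (by omega)] at this
      rw [show i - 10 + a = i + a - 10 by omega, show i - 10 + b = i + b - 10 by omega,
        show i - 10 + l + a = i + l + a - 10 by omega, show i - 10 + l + b = i + l + b - 10 by omega]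
      exact this
    · have h' := h.rot hil (fun k hk => by
        rw [show 64 * 2 ^ s + 21 - 1 - k = 64 * 2 ^ s + 20 - k by omega]; exact F_anti s k hk)
      exact F_sq_left s _ l hl (by omega) (by omega) h'

lemma f_inj : ∀ (r m m' : ℕ), 0 < m → m < 2 ^ r → 0 < m' → m' < 2 ^ r → f r m = f r m' → m = m' := by
  intro r
  induction r with
  | zero => intro m m' h1 h2; simp at h2; omega
  | succ r ih =>
    intro m m' h1 h2 h3 h4 he
    rcases Nat.eq_zero_or_pos r with hr | hr
    · subst hr; simp at h2 h4; omega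
    have hpos : (0 : ℤ) < 2 ^ (r + 1) := by positivity
    have hm : (m : ℤ) < 2 ^ (r + 1) := by exact_mod_cast h2
    have hm' : (m' : ℤ) < 2 ^ (r + 1) := by exact_mod_cast h4
    have hm0 : (0 : ℤ) < m := by exact_mod_cast h1
    have hm0' : (0 : ℤ) < m' := by exact_mod_cast h3
    have hp : 2 ^ (r + 1) = 2 * 2 ^ r := by ring
    rcases (show m % 2 = 0 ∨ m % 4 = 1 ∨ m % 4 = 3 by omega) with h | h | h <;>
    rcases (show m' % 2 = 0 ∨ m' % 4 = 1 ∨ m' % 4 = 3 by omega) with h' | h' | h'
    · rw [f_even r m h, f_even r m' h'] at he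
      have := ih _ _ (by omega) (by omega) (by omega) (by omega) he
      omega
    · have e1 := f_mid r m h1 h2 h
      rw [he, f_one r m' (by omega) h'] at e1
      linarith [e1.1]
    · have e1 := f_mid r m h1 h2 h
      rw [he, f_three r m' (by omega) h'] at e1
      linarith [e1.2]
    · have e1 := f_mid r m' h3 h4 h'
      rw [← he, f_one r m (by omega) h] at e1
      linarith [e1.1]
    · rw [f_one r m (by omega) h, f_one r m' (by omega) h'] at he
      have : (m : ℤ) = m' := by linarith
      exact_mod_cast this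
    · rw [f_one r m (by omega) h, f_three r m' (by omega) h'] at he
      linarith
    · have e1 := f_mid r m' h3 h4 h'
      rw [← he, f_three r m (by omega) h] at e1
      linarith [e1.2]
    · rw [f_three r m (by omega) h, f_one r m' (by omega) h'] at he
      linarith
    · rw [f_three r m (by omega) h, f_three r m' (by omega) h'] at he
      have : (m : ℤ) = m' := by linarith
      exact_mod_cast this

lemma F_class (s k : ℕ) (h1 : 12 ≤ k) (h2 : k < 64 * 2 ^ s + 9) :
    (k % 4 = 3 ∧ F s k = (k : ℤ) - 10 - 256 * 2 ^ s) ∨ (k % 4 = 1 ∧ F s k = 192 * 2 ^ s + (k : ℤ) - 10) ∨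
      (-(128 * 2 ^ s) < F s k ∧ F s k < 128 * 2 ^ s) := by
  have hpow : (2 : ℤ) ^ (s + 5 + 1) = 64 * 2 ^ s := by ring
  have hc : ((k - 10 : ℕ) : ℤ) = (k : ℤ) - 10 := by omega
  rw [F_mid s k h1 h2]
  rcases (show (k - 10) % 2 = 0 ∨ (k - 10) % 4 = 1 ∨ (k - 10) % 4 = 3 by omega) with h | h | h
  · right; right
    have := f_mid (s + 5) (k - 10) (by omega) (by rw [pow6]; omega) h
    rw [hpow] at this
    constructor
    · linarith [this.1]
    · linarith [this.2]
  · left
    refine ⟨by omega, ?_⟩
    rw [f_one (s + 5) _ (by omega) h, hpow, hc]; ring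
  · right; left
    refine ⟨by omega, ?_⟩
    rw [f_three (s + 5) _ (by omega) h, hpow, hc]; ring

lemma F_inj_left_mid (s i j : ℕ) (hi : i < 12) (hj : 12 ≤ j) (hj' : j < 64 * 2 ^ s + 9) :
    F s i ≠ F s j := by
  intro he
  have hpos : (0 : ℤ) < 2 ^ s := by positivity
  have hjz : (j : ℤ) < 64 * 2 ^ s + 9 := by
    have : (j : ℤ) < ((64 * 2 ^ s + 9 : ℕ) : ℤ) := by exact_mod_cast hj'
    push_cast at this; exact this
  obtain ⟨v0, v1, v2, v3, v4, v5, v6, v7, v8, v9, v10, v11⟩ := F_vals s
  rcases F_class s j hj hj' with h | h | h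
  · rw [h.2] at he
    interval_cases i <;> simp only [v0, v1, v2, v3, v4, v5, v6, v7, v8, v9, v10, v11] at he <;> omega
  · rw [h.2] at he
    interval_cases i <;> simp only [v0, v1, v2, v3, v4, v5, v6, v7, v8, v9, v10, v11] at he <;> omega
  · rw [← he] at h
    interval_cases i <;> simp only [v0, v1, v2, v3, v4, v5, v6, v7, v8, v9, v10, v11] at h <;> omega

lemma F_inj_left (s i j : ℕ) (hi : i < 12) (hj : j < 12) (he : F s i = F s j) : i = j := by
  have hpos : (0 : ℤ) < 2 ^ s := by positivity
  obtain ⟨v0, v1, v2, v3, v4, v5, v6, v7, v8, v9, v10, v11⟩ := F_vals s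
  interval_cases i <;> interval_cases j <;>
    simp only [v0, v1, v2, v3, v4, v5, v6, v7, v8, v9, v10, v11] at he <;> first | rfl | omega

lemma F_inj_left_right (s i j : ℕ) (hi : i < 12) (hj : j < 12) : F s i ≠ - F s j := by
  intro he
  have hpos : (0 : ℤ) < 2 ^ s := by positivity
  obtain ⟨v0, v1, v2, v3, v4, v5, v6, v7, v8, v9, v10, v11⟩ := F_vals s
  interval_cases i <;> interval_cases j <;>
    simp only [v0, v1, v2, v3, v4, v5, v6, v7, v8, v9, v10, v11] at he <;> omega

lemma F_inj_aux (s i j : ℕ) (hi : i < 12) (hj : j < 64 * 2 ^ s + 21) (he : F s i = F s j) : i = j := by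
  by_cases h1 : j < 12
  · exact F_inj_left s i j hi h1 he
  · by_cases h2 : j < 64 * 2 ^ s + 9
    · exact absurd he (F_inj_left_mid s i j hi (by omega) h2)
    · have h3 := F_anti s (64 * 2 ^ s + 20 - j) (by omega)
      rw [show 64 * 2 ^ s + 20 - (64 * 2 ^ s + 20 - j) = j by omega] at h3
      rw [h3] at he
      exact absurd he (F_inj_left_right s i _ hi (by omega))

lemma F_inj (s i j : ℕ) (hi : i < 64 * 2 ^ s + 21) (hj : j < 64 * 2 ^ s + 21) (he : F s i = F s j) : i = j := by
  by_cases h1 : i < 12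
  · exact F_inj_aux s i j h1 hj he
  by_cases h2 : j < 12
  · exact (F_inj_aux s j i h2 hi he.symm).symm
  have ai := F_anti s i hi
  have aj := F_anti s j hj
  by_cases h3 : 64 * 2 ^ s + 9 ≤ i
  · have := F_inj_aux s (64 * 2 ^ s + 20 - i) (64 * 2 ^ s + 20 - j) (by omega) (by omega) (by rw [ai, aj, he])
    omega
  by_cases h4 : 64 * 2 ^ s + 9 ≤ j
  · have := F_inj_aux s (64 * 2 ^ s + 20 - j) (64 * 2 ^ s + 20 - i) (by omega) (by omega) (by rw [ai, aj, he])
    omega
  rw [F_mid s i (by omega) (by omega), F_mid s j (by omega) (by omega)] at he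
  have := f_inj (s + 6) _ _ (by omega) (by rw [pow6]; omega) (by omega) (by rw [pow6]; omega) he
  omega

end Pool.Agent.ULead.ExtSq
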